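import Pool.Agent.Q146.LDim.Struct

open Finset

namespace Q146.LD

section
variable {n k : ℕ}

/-- density between parts -/
noncomputable def dn (r : Fin n → Fin n → Prop) (pi : Fin n → Fin k) (i j : Fin k) : ℝ :=
  (((cg r).edgeDensity (prt pi i) (prt pi j) : ℚ) : ℝ)

lemma dn_comm (r : Fin n → Fin n → Prop) (pi : Fin n → Fin k) (i j : Fin k) :
    dn r pi i j = dn r pi j i := by
  rw [dn, dn, SimpleGraph.edgeDensity_comm]

lemma sum_card_prt (pi : Fin n → Fin k) : ∑ j, (prt pi j).card = n := by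
  have := Finset.card_eq_sum_card_fiberwise (f := pi) (s := (univ : Finset (Fin n)))
    (t := (univ : Finset (Fin k))) (fun _ _ => by simp)
  rw [Finset.card_univ, Fintype.card_fin] at this
  exact this.symm

lemma dev_sum (r : Fin n → Fin n → Prop) (pi : Fin n → Fin k) (δ : ℝ) (hδ : 0 ≤ δ) (i j : Fin k)
    (hij : i ≠ j) (hch : dn r pi i j ≤ δ ∨ 1 - δ ≤ dn r pi i j) :
    ∑ x ∈ prt pi i, ((devs r pi (fun a b => dn r pi a b ≤ δ) x j).card : ℝ) ≤
      δ * (prt pi i).card * (prt pi j).card := by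
  classical
  rcases Nat.eq_zero_or_pos ((prt pi i).card) with h0 | h0
  · rw [Finset.card_eq_zero.1 h0]; simp
  rcases Nat.eq_zero_or_pos ((prt pi j).card) with h1 | h1
  · have : ∀ x, devs r pi (fun a b => dn r pi a b ≤ δ) x j = ∅ := by
      intro x
      rw [devs]
      split_ifs <;> rw [Finset.card_eq_zero.1 h1] <;> rfl
    simp [this, h1]
  have h0' : (0:ℝ) < (prt pi i).card := by exact_mod_cast h0
  have h1' : (0:ℝ) < (prt pi j).card := by exact_mod_cast h1
  have hadj : ∀ x ∈ prt pi i, ∀ y ∈ prt pi j, ((r x y ∨ r y x) ↔ (cg r).Adj y x) := by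
    intro x hx y hy
    rw [cg_adj]
    have hne : y ≠ x := by
      rintro rfl
      rw [prt, Finset.mem_filter] at hx hy
      exact hij (hx.2.symm.trans hy.2)
    constructor
    · intro h; exact ⟨hne, h.symm⟩
    · intro h; exact h.2.symm
  have hE : ∑ x ∈ prt pi i, (((prt pi j).filter (fun y => (cg r).Adj y x)).card : ℝ) =
      dn r pi i j * ((prt pi i).card * (prt pi j).card) := by
    rw [dn_comm, dn, dens_eq, inter_sum]
    push_cast
    field_simp
  by_cases hlo : dn r pi i j ≤ δ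
  · have h2 : ∀ x ∈ prt pi i, devs r pi (fun a b => dn r pi a b ≤ δ) x j =
        (prt pi j).filter (fun y => (cg r).Adj y x) := by
      intro x hx
      have hpx : pi x = i := by rw [prt, Finset.mem_filter] at hx; exact hx.2
      rw [devs, if_pos (by rw [hpx]; exact hlo)]
      apply Finset.filter_congr
      intro y hy
      exact hadj x hx y hy
    rw [Finset.sum_congr rfl (fun x hx => by rw [h2 x hx]), hE]
    nlinarith [mul_pos h0' h1']
  · have hhi : 1 - δ ≤ dn r pi i j := by
      rcases hch with h | h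
      · exact absurd h hlo
      · exact h
    have h2 : ∀ x ∈ prt pi i, ((devs r pi (fun a b => dn r pi a b ≤ δ) x j).card : ℝ) =
        (prt pi j).card - (((prt pi j).filter (fun y => (cg r).Adj y x)).card : ℝ) := by
      intro x hx
      have hpx : pi x = i := by rw [prt, Finset.mem_filter] at hx; exact hx.2
      rw [devs, if_neg (by rw [hpx]; exact hlo)]
      have h3 : (prt pi j).filter (fun y => ¬ (r x y ∨ r y x)) =
          (prt pi j).filter (fun y => ¬ (cg r).Adj y x) := by
        apply Finset.filter_congr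
        intro y hy
        rw [hadj x hx y hy]
      rw [h3]
      have h4 := Finset.card_filter_add_card_filter_not (s := prt pi j) (fun y => (cg r).Adj y x)
      rw [← h4]
      push_cast
      ring
    rw [Finset.sum_congr rfl h2, Finset.sum_sub_distrib, hE, Finset.sum_const, nsmul_eq_mul]
    nlinarith [mul_pos h0' h1']

/-- orientation of the middle density pairs -/
lemma orient_mid (r : Fin n → Fin n → Prop) (hr : ∀ x y, r x y → x ≤ y)
    (htr : ∀ x y z, r x y → r y z → r x z) (pi : Fin n → Fin k) (ε δ : ℝ) (hε : 0 < ε)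
    (hε1 : 21 * ε ≤ 1) (hδ : 11 * ε ≤ δ) (s : ℕ) (hs : 3 ≤ s) (hS1 : ∀ i, s ≤ (prt pi i).card)
    (hS2 : ∀ i, (prt pi i).card ≤ s + 1)
    (hnu : ∀ F : Finset (Fin k × Fin k), (∀ p ∈ F, p.1 < p.2 ∧
      ¬ (cg r).IsUniform ε (prt pi p.1) (prt pi p.2)) → (F.card : ℝ) ≤ ε * k ^ 2) :
    ∃ O : Fin k → Fin k → Prop, (∀ a b, a ≠ b → δ < dn r pi a b → dn r pi a b < 1 - δ →
      O a b ∨ O b a) ∧
      ∀ a (F : Finset (Fin k)), (∀ b ∈ F, O a b) → (F.card : ℝ) ≤ k / 4 + 2 * ε * k + 1 := by
  classical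
  set U : SimpleGraph (Fin k) :=
    { Adj := fun i j => i ≠ j ∧ (δ < dn r pi i j ∧ dn r pi i j < 1 - δ) ∧
        (cg r).IsUniform ε (prt pi i) (prt pi j)
      symm := ⟨fun i j h => ⟨h.1.symm, by rw [dn_comm]; exact h.2.1, h.2.2.symm⟩⟩
      loopless := ⟨fun i h => h.1 rfl⟩ } with hU
  have hUadj : ∀ i j, U.Adj i j ↔ i ≠ j ∧ (δ < dn r pi i j ∧ dn r pi i j < 1 - δ) ∧
        (cg r).IsUniform ε (prt pi i) (prt pi j) := fun i j => Iff.rfl
  have hUf : U.CliqueFree 3 := by
    intro t ht
    rw [SimpleGraph.is3Clique_iff] at ht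
    obtain ⟨a, b, c, hab, hac, hbc, -⟩ := ht
    set v : Fin 3 → Fin k := ![a, b, c] with hv
    have hvv : ∀ i j, i ≠ j → U.Adj (v i) (v j) := by
      intro i j hij
      fin_cases i <;> fin_cases j <;> first | exact absurd rfl hij | skip
      · exact hab
      · exact hac
      · exact hab.symm
      · exact hbc
      · exact hac.symm
      · exact hbc.symm
    exact no_triangle r hr htr (fun i => prt pi (v i)) ε δ hε hε1 hδ s hs (fun i => hS1 _)
      (fun i => hS2 _) (fun i j hij => (hvv i j hij).2.2) (fun i j hij => (hvv i j hij).2.1.1)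
      (fun i j hij => (hvv i j hij).2.1.2)
  set d : ℕ := ⌈(k:ℝ) / 4 + 2 * ε * k⌉₊ with hd
  have hd1 : (k:ℝ) / 4 + 2 * ε * k ≤ d := Nat.le_ceil _
  have hd2 : (d:ℝ) ≤ k / 4 + 2 * ε * k + 1 := (Nat.ceil_lt_add_one (by positivity)).le
  obtain ⟨O, hO1, hO2⟩ := orient (fun a b : Fin k => δ < dn r pi a b ∧ dn r pi a b < 1 - δ) d (by
    intro S
    have hsub : (S ×ˢ S).filter (fun p : Fin k × Fin k => p.1 < p.2 ∧
        (δ < dn r pi p.1 p.2 ∧ dn r pi p.1 p.2 < 1 - δ)) ⊆
        ((S ×ˢ S).filter (fun p : Fin k × Fin k => p.1 < p.2 ∧ U.Adj p.1 p.2)) ∪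
        (univ.filter (fun p : Fin k × Fin k => p.1 < p.2 ∧
          ¬ (cg r).IsUniform ε (prt pi p.1) (prt pi p.2))) := by
      intro p hp
      rw [Finset.mem_filter] at hp
      rw [Finset.mem_union, Finset.mem_filter, Finset.mem_filter]
      by_cases h : (cg r).IsUniform ε (prt pi p.1) (prt pi p.2)
      · exact Or.inl ⟨hp.1, hp.2.1, (hUadj _ _).2 ⟨hp.2.1.ne, hp.2.2, h⟩⟩
      · exact Or.inr ⟨Finset.mem_univ _, hp.2.1, h⟩
    have h1 := (Finset.card_le_card hsub).trans (Finset.card_union_le _ _)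
    have h2 := mantel U hUf S
    have h3 := hnu (univ.filter (fun p : Fin k × Fin k => p.1 < p.2 ∧
          ¬ (cg r).IsUniform ε (prt pi p.1) (prt pi p.2))) (fun p hp => (Finset.mem_filter.1 hp).2)
    have hsub4 : 2 * ((S ×ˢ S).filter (fun p : Fin k × Fin k => p.1 < p.2 ∧
        (δ < dn r pi p.1 p.2 ∧ dn r pi p.1 p.2 < 1 - δ))).card ≤ S.card * S.card := by
      set F := (S ×ˢ S).filter (fun p : Fin k × Fin k => p.1 < p.2 ∧
        (δ < dn r pi p.1 p.2 ∧ dn r pi p.1 p.2 < 1 - δ)) with hF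
      have h5 : F.card + (F.image Prod.swap).card ≤ (S ×ˢ S).card := by
        rw [← Finset.card_union_of_disjoint]
        · apply Finset.card_le_card
          apply Finset.union_subset (Finset.filter_subset _ _)
          intro p hp
          rw [Finset.mem_image] at hp
          obtain ⟨q, hq, rfl⟩ := hp
          rw [hF, Finset.mem_filter, Finset.mem_product] at hq
          rw [Finset.mem_product]
          exact ⟨hq.1.2, hq.1.1⟩
        · rw [Finset.disjoint_left]
          intro p hp hp'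
          rw [Finset.mem_image] at hp'
          obtain ⟨q, hq, rfl⟩ := hp'
          rw [hF, Finset.mem_filter] at hp hq
          exact absurd (hp.2.1.trans hq.2.1) (lt_irrefl _)
      rw [Finset.card_image_of_injective _ Prod.swap_injective, Finset.card_product] at h5
      omega
    have h1' := (Nat.cast_le (α := ℝ)).2 h1
    have h2' := (Nat.cast_le (α := ℝ)).2 h2
    have h4' := (Nat.cast_le (α := ℝ)).2 hsub4
    have hSk : (S.card : ℝ) ≤ k := by
      have := Finset.card_le_univ S
      rw [Fintype.card_fin] at this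
      exact_mod_cast this
    have hS0 : (0:ℝ) ≤ S.card := Nat.cast_nonneg _
    push_cast at h1' h2' h4'
    generalize ((S ×ˢ S).filter (fun p : Fin k × Fin k => p.1 < p.2 ∧
        (δ < dn r pi p.1 p.2 ∧ dn r pi p.1 p.2 < 1 - δ))).card = e at *
    generalize ((S ×ˢ S).filter (fun p : Fin k × Fin k => p.1 < p.2 ∧ U.Adj p.1 p.2)).card = u at *
    generalize (univ.filter (fun p : Fin k × Fin k => p.1 < p.2 ∧
          ¬ (cg r).IsUniform ε (prt pi p.1) (prt pi p.2))).card = w at *
    have hk0 : (0:ℝ) ≤ k := Nat.cast_nonneg _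
    have hgoal : (e : ℝ) ≤ d * S.card := by
      by_cases hsm : (S.card : ℝ) ≤ k / 2
      · have e1 : (e : ℝ) ≤ k / 4 * S.card := by nlinarith
        have e2 : (k:ℝ) / 4 * S.card ≤ d * S.card := by
          apply mul_le_mul_of_nonneg_right _ hS0
          nlinarith [mul_nonneg hε.le hk0]
        linarith
      · rw [not_le] at hsm
        have e1 : ε * (k:ℝ) ^ 2 ≤ 2 * ε * k * S.card := by
          have : ε * k * (k / 2) ≤ ε * k * S.card :=
            mul_le_mul_of_nonneg_left hsm.le (mul_nonneg hε.le hk0)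
          nlinarith
        have e2 : (S.card : ℝ) ^ 2 ≤ k * S.card := by nlinarith
        have e3 : (e : ℝ) ≤ ((k:ℝ) / 4 + 2 * ε * k) * S.card := by nlinarith
        exact e3.trans (mul_le_mul_of_nonneg_right hd1 hS0)
    exact_mod_cast hgoal)
  refine ⟨O, ?_, ?_⟩
  · intro a b hab h1 h2
    rcases lt_or_gt_of_ne hab with h | h
    · exact hO1 a b h ⟨h1, h2⟩
    · rw [dn_comm] at h1 h2
      exact (hO1 b a h ⟨h1, h2⟩).symm
  · intro a F hF
    exact le_trans (by exact_mod_cast hO2 a F hF) hd2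

end

end Q146.LD
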