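import Pool.Agent.Q146.LDim.Groups

open Finset

namespace Q146.LD

section
variable {n : ℕ}

/-- a vertex is typical for a big group -/
def typ {k : ℕ} (pi : Fin n → Fin k) (dev : Fin n → Fin k → Finset (Fin n)) (h : ℕ) (θ : ℝ)
    (x : Fin n) (j : Fin k) (i : ℕ) : Prop :=
  ¬ ((∃ y ∈ grp (prt pi j) h i, y < x) ∧ (∃ y ∈ grp (prt pi j) h i, x < y)) ∧
    (((dev x j) ∩ (grp (prt pi j) h i)).card : ℝ) ≤ θ * h

/-- deviation sets -/
noncomputable def devs (r : Fin n → Fin n → Prop) {k : ℕ} (pi : Fin n → Fin k)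
    (lo : Fin k → Fin k → Prop) (x : Fin n) (j : Fin k) : Finset (Fin n) :=
  open Classical in
  if lo (pi x) j then (prt pi j).filter (fun y => r x y ∨ r y x)
  else (prt pi j).filter (fun y => ¬ (r x y ∨ r y x))

open Classical in
lemma pat_big_aux (r : Fin n → Fin n → Prop) (hr : ∀ x y, r x y → x ≤ y) {k : ℕ} (pi : Fin n → Fin k)
    (lo : Fin k → Fin k → Prop) (h : ℕ) (θ : ℝ) (x : Fin n) (j : Fin k) (i : ℕ)
    (hx : pi x ≠ j) (ht : typ pi (devs r pi lo) h θ x j i) (hθ : 0 ≤ θ) :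
    (((grp (prt pi j) h i).filter (fun y => y < x ∧ ¬ r y x)).card : ℝ) ≤ θ * h ∨
    (((grp (prt pi j) h i) \ ((grp (prt pi j) h i).filter (fun y => y < x ∧ ¬ r y x))).card : ℝ)
      ≤ θ * h := by
  have hh : 0 ≤ θ * h := by positivity
  set G := grp (prt pi j) h i with hG
  have hGj : ∀ y ∈ G, y ∈ prt pi j := fun y hy => (Finset.mem_filter.1 hy).1
  have hne : ∀ y ∈ G, y ≠ x := by
    rintro y hy rfl
    have := hGj y hy
    rw [prt, Finset.mem_filter] at this
    exact hx this.2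
  by_cases hb : ∃ y ∈ G, y < x
  · have hall : ∀ y ∈ G, y < x := by
      intro y hy
      by_contra hc
      exact ht.1 ⟨hb, y, hy, lt_of_le_of_ne (not_lt.1 hc) (Ne.symm (hne y hy))⟩
    have hcmp : ∀ y ∈ G, (r x y ∨ r y x) ↔ r y x := by
      intro y hy
      refine ⟨fun h => ?_, Or.inr⟩
      rcases h with h | h
      · exact absurd (hr _ _ h) (not_le.2 (hall y hy))
      · exact h
    have h2 := ht.2
    rw [devs] at h2
    split_ifs at h2 with hlo
    · right
      refine le_trans ?_ h2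
      apply Nat.cast_le.2
      apply Finset.card_le_card
      intro y hy
      simp only [Finset.mem_sdiff, Finset.mem_filter, not_and, not_not] at hy
      rw [Finset.mem_inter, Finset.mem_filter]
      exact ⟨⟨hGj y hy.1, Or.inr (hy.2 hy.1 (hall y hy.1))⟩, hy.1⟩
    · left
      refine le_trans ?_ h2
      apply Nat.cast_le.2
      apply Finset.card_le_card
      intro y hy
      rw [Finset.mem_filter] at hy
      rw [Finset.mem_inter, Finset.mem_filter, hcmp y hy.1]
      exact ⟨⟨hGj y hy.1, hy.2.2⟩, hy.1⟩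
  · left
    have : G.filter (fun y => y < x ∧ ¬ r y x) = ∅ := by
      rw [Finset.filter_eq_empty_iff]
      intro y hy hc
      exact hb ⟨y, hy, hc.1⟩
    rw [this]
    simpa using hh

open Classical in
lemma pat_big_aux' (r : Fin n → Fin n → Prop) (hr : ∀ x y, r x y → x ≤ y) {k : ℕ} (pi : Fin n → Fin k)
    (lo : Fin k → Fin k → Prop) (h : ℕ) (θ : ℝ) (x : Fin n) (j : Fin k) (i : ℕ)
    (hx : pi x ≠ j) (ht : typ pi (devs r pi lo) h θ x j i) (hθ : 0 ≤ θ) :
    (((grp (prt pi j) h i).filter (fun y => x < y ∧ ¬ r x y)).card : ℝ) ≤ θ * h ∨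
    (((grp (prt pi j) h i) \ ((grp (prt pi j) h i).filter (fun y => x < y ∧ ¬ r x y))).card : ℝ)
      ≤ θ * h := by
  have hh : 0 ≤ θ * h := by positivity
  set G := grp (prt pi j) h i with hG
  have hGj : ∀ y ∈ G, y ∈ prt pi j := fun y hy => (Finset.mem_filter.1 hy).1
  have hne : ∀ y ∈ G, y ≠ x := by
    rintro y hy rfl
    have := hGj y hy
    rw [prt, Finset.mem_filter] at this
    exact hx this.2
  by_cases hb : ∃ y ∈ G, x < y
  · have hall : ∀ y ∈ G, x < y := by
      intro y hy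
      by_contra hc
      exact ht.1 ⟨⟨y, hy, lt_of_le_of_ne (not_lt.1 hc) (hne y hy)⟩, hb⟩
    have hcmp : ∀ y ∈ G, (r x y ∨ r y x) ↔ r x y := by
      intro y hy
      refine ⟨fun h => ?_, Or.inl⟩
      rcases h with h | h
      · exact h
      · exact absurd (hr _ _ h) (not_le.2 (hall y hy))
    have h2 := ht.2
    rw [devs] at h2
    split_ifs at h2 with hlo
    · right
      refine le_trans ?_ h2
      apply Nat.cast_le.2
      apply Finset.card_le_card
      intro y hy
      simp only [Finset.mem_sdiff, Finset.mem_filter, not_and, not_not] at hy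
      rw [Finset.mem_inter, Finset.mem_filter]
      exact ⟨⟨hGj y hy.1, Or.inl (hy.2 hy.1 (hall y hy.1))⟩, hy.1⟩
    · left
      refine le_trans ?_ h2
      apply Nat.cast_le.2
      apply Finset.card_le_card
      intro y hy
      rw [Finset.mem_filter] at hy
      rw [Finset.mem_inter, Finset.mem_filter, hcmp y hy.1]
      exact ⟨⟨hGj y hy.1, hy.2.2⟩, hy.1⟩
  · left
    have : G.filter (fun y => x < y ∧ ¬ r x y) = ∅ := by
      rw [Finset.filter_eq_empty_iff]
      intro y hy hc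
      exact hb ⟨y, hy, hc.1⟩
    rw [this]
    simpa using hh

open Classical in
lemma pat_count (S : Finset (Fin n)) (h : ℕ) (θ : ℝ) (N : ℕ)
    (hN : (S.powerset.filter (fun P => (P.card : ℝ) ≤ θ * h)).card ≤ N)
    (F : Finset (Finset (Fin n))) (hF : ∀ P ∈ F, P ⊆ S ∧ ((P.card : ℝ) ≤ θ * h ∨
      ((S \ P).card : ℝ) ≤ θ * h)) : F.card ≤ 2 * N := by
  have hsub : F ⊆ (S.powerset.filter (fun P => (P.card : ℝ) ≤ θ * h)) ∪
      ((S.powerset.filter (fun P => (P.card : ℝ) ≤ θ * h)).image (fun P => S \ P)) := by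
    intro P hP
    obtain ⟨h1, h2⟩ := hF P hP
    rw [Finset.mem_union, Finset.mem_filter, Finset.mem_powerset, Finset.mem_image]
    rcases h2 with h2 | h2
    · exact Or.inl ⟨h1, h2⟩
    · refine Or.inr ⟨S \ P, ?_, ?_⟩
      · rw [Finset.mem_filter, Finset.mem_powerset]
        exact ⟨Finset.sdiff_subset, h2⟩
      · exact Finset.sdiff_sdiff_eq_self h1
  have h1 := (Finset.card_le_card hsub).trans (Finset.card_union_le _ _)
  have h2 : ((S.powerset.filter (fun P => (P.card : ℝ) ≤ θ * h)).image (fun P => S \ P)).card ≤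
    (S.powerset.filter (fun P => (P.card : ℝ) ≤ θ * h)).card := Finset.card_image_le
  omega

open Classical in
/-- typical vertices handle big groups -/
theorem handle_big {r : Fin n → Fin n → Prop} (hr : ∀ x y, r x y → x ≤ y) {k : ℕ}
    (pi : Fin n → Fin k) (lo ch : Fin k → Fin k → Prop) (hch : ∀ a b, ch a b → a ≠ b)
    (h : ℕ) (hh : 0 < h) (θ : ℝ) (hθ : 0 ≤ θ) (N : ℕ)
    (hN : ∀ S : Finset (Fin n), S.card ≤ h →
      (S.powerset.filter (fun P => (P.card : ℝ) ≤ θ * h)).card ≤ N) :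
    Cover r (fun x y => y < x ∧ ¬ r y x ∧ ∃ τ : Fin k × Fin n,
        ((ch (pi x) τ.1 ∧ typ pi (devs r pi lo) h θ x τ.1 τ.2) ∧ y ∈ grp (prt pi τ.1) h τ.2) ∨
        ((ch (pi y) τ.1 ∧ typ pi (devs r pi lo) h θ y τ.1 τ.2) ∧ x ∈ grp (prt pi τ.1) h τ.2))
      (fun x => ((∑ j ∈ univ.filter (ch (pi x)), ((prt pi j).card / h + 2) : ℕ) : ℝ) +
        2 * ((2 * N : ℕ) : ℝ)) := by
  obtain ⟨H', hH'⟩ : ∃ H' : Fin n → Fin k × Fin n → Prop, ∀ x τ, H' x τ ↔ (ch (pi x) τ.1 ∧
      typ pi (devs r pi lo) h θ x τ.1 τ.2) := ⟨_, fun _ _ => Iff.rfl⟩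
  have hm : ∀ τ : Fin k × Fin n, ((univ.filter (fun x => H' x τ)).image
      (fun x => (grp (prt pi τ.1) h τ.2).filter (fun y => y < x ∧ ¬ r y x))).card ≤ 2 * N := by
    intro τ
    apply pat_count (grp (prt pi τ.1) h τ.2) h θ N (hN _ (card_grp _ hh _))
    intro P hP
    rw [Finset.mem_image] at hP
    obtain ⟨x, hx, rfl⟩ := hP
    rw [Finset.mem_filter, hH'] at hx
    exact ⟨Finset.filter_subset _ _, pat_big_aux r hr pi lo h θ x _ _ (hch _ _ hx.2.1) hx.2.2 hθ⟩
  have hp : ∀ τ : Fin k × Fin n, ((univ.filter (fun x => H' x τ)).image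
      (fun x => (grp (prt pi τ.1) h τ.2).filter (fun y => x < y ∧ ¬ r x y))).card ≤ 2 * N := by
    intro τ
    apply pat_count (grp (prt pi τ.1) h τ.2) h θ N (hN _ (card_grp _ hh _))
    intro P hP
    rw [Finset.mem_image] at hP
    obtain ⟨x, hx, rfl⟩ := hP
    rw [Finset.mem_filter, hH'] at hx
    exact ⟨Finset.filter_subset _ _, pat_big_aux' r hr pi lo h θ x _ _ (hch _ _ hx.2.1) hx.2.2 hθ⟩
  have H := handle (r := r) (Fin k × Fin n) (fun τ => grp (prt pi τ.1) h τ.2) H' (2 * N)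
    (group_unique pi h) hm hp
  refine H.mono ?_ ?_
  · rintro x y ⟨h1, h2, τ, h3⟩
    refine ⟨h1, h2, τ, ?_⟩
    rw [hH', hH']
    exact h3
  intro x
  have h1 : (univ.filter (fun τ : Fin k × Fin n => H' x τ ∧
      ∃ y ∈ grp (prt pi τ.1) h τ.2, y < x)).card ≤
      (univ.filter (fun τ : Fin k × Fin n => ch (pi x) τ.1 ∧
        ∃ y ∈ grp (prt pi τ.1) h τ.2, y < x)).card := by
    apply Finset.card_le_card
    intro τ hτ
    rw [Finset.mem_filter, hH'] at hτ
    rw [Finset.mem_filter]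
    exact ⟨hτ.1, hτ.2.1.1, hτ.2.2⟩
  have h2 : (univ.filter (fun τ : Fin k × Fin n => H' x τ ∧
      ∃ y ∈ grp (prt pi τ.1) h τ.2, x < y)).card ≤
      (univ.filter (fun τ : Fin k × Fin n => ch (pi x) τ.1 ∧
        ∃ y ∈ grp (prt pi τ.1) h τ.2, x < y)).card := by
    apply Finset.card_le_card
    intro τ hτ
    rw [Finset.mem_filter, hH'] at hτ
    rw [Finset.mem_filter]
    exact ⟨hτ.1, hτ.2.1.1, hτ.2.2⟩
  rw [sum_parts pi h (ch (pi x)) (fun y => y < x)] at h1
  rw [sum_parts pi h (ch (pi x)) (fun y => x < y)] at h2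
  have h3 : (∑ j ∈ univ.filter (ch (pi x)),
      (univ.filter (fun i : Fin n => ∃ y ∈ grp (prt pi j) h i, y < x)).card) +
      (∑ j ∈ univ.filter (ch (pi x)),
      (univ.filter (fun i : Fin n => ∃ y ∈ grp (prt pi j) h i, x < y)).card) ≤
      ∑ j ∈ univ.filter (ch (pi x)), ((prt pi j).card / h + 2) := by
    rw [← Finset.sum_add_distrib]
    exact Finset.sum_le_sum (fun j _ => touch_card _ h x)
  have h4 := (Nat.cast_le (α := ℝ)).2 ((add_le_add h1 h2).trans h3)
  push_cast at h4 ⊢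
  linarith

open Classical in
lemma nontyp_card {k : ℕ} (pi : Fin n → Fin k) (dev : Fin n → Fin k → Finset (Fin n)) (h : ℕ)
    (θ : ℝ) (hθ : 0 < θ) (hh : 0 < h) (x : Fin n) (j : Fin k) :
    ((univ.filter (fun i : Fin n => ¬ typ pi dev h θ x j i ∧
      (grp (prt pi j) h i).Nonempty)).card : ℝ) ≤ 1 + ((dev x j).card : ℝ) / (θ * h) := by
  have hθh : 0 < θ * h := by positivity
  set S1 := univ.filter (fun i : Fin n => (∃ y ∈ grp (prt pi j) h i, y < x) ∧
    (∃ y ∈ grp (prt pi j) h i, x < y)) with hS1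
  set S2 := univ.filter (fun i : Fin n => θ * h < (((dev x j) ∩ (grp (prt pi j) h i)).card : ℝ))
    with hS2
  have hsub : (univ.filter (fun i : Fin n => ¬ typ pi dev h θ x j i ∧
      (grp (prt pi j) h i).Nonempty)) ⊆ S1 ∪ S2 := by
    intro i hi
    rw [Finset.mem_filter] at hi
    rw [Finset.mem_union, hS1, hS2, Finset.mem_filter, Finset.mem_filter]
    have := hi.2.1
    rw [typ, not_and_or, not_not, not_le] at this
    rcases this with h | h
    · exact Or.inl ⟨Finset.mem_univ _, h⟩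
    · exact Or.inr ⟨Finset.mem_univ _, h⟩
  have hc1 : S1.card ≤ 1 := by
    rw [Finset.card_le_one]
    have key : ∀ i ∈ S1, (i : ℕ) = rk (prt pi j) x / h := by
      intro i hi
      rw [hS1, Finset.mem_filter] at hi
      obtain ⟨-, ⟨y, hy, hyx⟩, ⟨z, hz, hxz⟩⟩ := hi
      rw [grp, Finset.mem_filter] at hy hz
      have h1 := Nat.div_le_div_right (c := h) (rk_mono (prt pi j) hyx.le)
      have h2 := Nat.div_le_div_right (c := h) (rk_mono (prt pi j) hxz.le)
      rw [hy.2] at h1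
      rw [hz.2] at h2
      omega
    intro a ha b hb
    exact Fin.ext ((key a ha).trans (key b hb).symm)
  have hc2 : (S2.card : ℝ) * (θ * h) ≤ ((dev x j).card : ℝ) := by
    have h1 : (S2.card : ℝ) * (θ * h) ≤ ∑ i ∈ S2, (((dev x j) ∩ (grp (prt pi j) h i)).card : ℝ) := by
      rw [← nsmul_eq_mul, ← Finset.sum_const]
      apply Finset.sum_le_sum
      intro i hi
      rw [hS2, Finset.mem_filter] at hi
      exact hi.2.le
    refine h1.trans ?_
    rw [← Nat.cast_sum, ← Finset.card_biUnion]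
    · apply Nat.cast_le.2
      apply Finset.card_le_card
      intro y hy
      rw [Finset.mem_biUnion] at hy
      obtain ⟨i, _, hi⟩ := hy
      exact Finset.mem_of_mem_inter_left hi
    · intro a _ b _ hab
      rw [Function.onFun, Finset.disjoint_left]
      intro y hy hy'
      rw [Finset.mem_inter, grp, Finset.mem_filter] at hy hy'
      exact hab (Fin.ext (hy.2.2.symm.trans hy'.2.2))
  have h3 := (Finset.card_le_card hsub).trans (Finset.card_union_le _ _)
  have h4 : (S2.card : ℝ) ≤ ((dev x j).card : ℝ) / (θ * h) := by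
    rw [le_div_iff₀ hθh]; exact hc2
  have h5 : ((S1.card + S2.card : ℕ) : ℝ) ≤ 1 + ((dev x j).card : ℝ) / (θ * h) := by
    push_cast
    have : (S1.card : ℝ) ≤ 1 := by exact_mod_cast hc1
    linarith
  exact le_trans (by exact_mod_cast h3) h5

open Classical in
/-- nontypical big groups are handled by small groups -/
theorem handle_nontyp {r : Fin n → Fin n → Prop} {k : ℕ} (pi : Fin n → Fin k)
    (dev : Fin n → Fin k → Finset (Fin n)) (g C : ℕ) (hg : 0 < g) (hC : 0 < C)
    (θ : ℝ) (hθ : 0 < θ) (Hd : Fin n → Fin k → Prop) (D : ℝ)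
    (hD : ∀ x, ∑ j ∈ univ.filter (Hd x), ((dev x j).card : ℝ) ≤ D) :
    Cover r (fun x y => y < x ∧ ¬ r y x ∧ ∃ τ : Fin k × Fin n,
        ((Hd x τ.1 ∧ ¬ typ pi dev (g * C) θ x τ.1 (τ.2 / C)) ∧ y ∈ grp (prt pi τ.1) g τ.2) ∨
        ((Hd y τ.1 ∧ ¬ typ pi dev (g * C) θ y τ.1 (τ.2 / C)) ∧ x ∈ grp (prt pi τ.1) g τ.2))
      (fun _ => 2 * (C * k + D / (θ * g)) + 2 * ((2 ^ g : ℕ) : ℝ)) := by
  obtain ⟨H', hH'⟩ : ∃ H' : Fin n → Fin k × Fin n → Prop, ∀ x τ, H' x τ ↔ (Hd x τ.1 ∧
      ¬ typ pi dev (g * C) θ x τ.1 (τ.2 / C)) := ⟨_, fun _ _ => Iff.rfl⟩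
  have H := handle (r := r) (Fin k × Fin n) (fun τ => grp (prt pi τ.1) g τ.2)
    H' (2 ^ g) (group_unique pi g)
    (fun τ => pat_small _ g (card_grp _ hg _) _ _)
    (fun τ => pat_small _ g (card_grp _ hg _) _ _)
  refine H.mono ?_ ?_
  · rintro x y ⟨h1, h2, τ, h3⟩
    refine ⟨h1, h2, τ, ?_⟩
    rw [hH', hH']
    exact h3
  intro x
  set S := univ.filter (fun τ : Fin k × Fin n => Hd x τ.1 ∧
    (¬ typ pi dev (g * C) θ x τ.1 (τ.2 / C) ∧ (grp (prt pi τ.1) g τ.2).Nonempty)) with hS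
  have h1 : (univ.filter (fun τ : Fin k × Fin n => H' x τ ∧
      ∃ y ∈ grp (prt pi τ.1) g τ.2, y < x)).card ≤ S.card := by
    apply Finset.card_le_card
    intro τ hτ
    rw [Finset.mem_filter, hH'] at hτ
    rw [hS, Finset.mem_filter]
    obtain ⟨y, hy, _⟩ := hτ.2.2
    exact ⟨hτ.1, hτ.2.1.1, hτ.2.1.2, ⟨y, hy⟩⟩
  have h2 : (univ.filter (fun τ : Fin k × Fin n => H' x τ ∧
      ∃ y ∈ grp (prt pi τ.1) g τ.2, x < y)).card ≤ S.card := by
    apply Finset.card_le_card
    intro τ hτ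
    rw [Finset.mem_filter, hH'] at hτ
    rw [hS, Finset.mem_filter]
    obtain ⟨y, hy, _⟩ := hτ.2.2
    exact ⟨hτ.1, hτ.2.1.1, hτ.2.1.2, ⟨y, hy⟩⟩
  have hScard : S.card = ∑ j ∈ univ.filter (Hd x), (univ.filter (fun i : Fin n =>
      ¬ typ pi dev (g * C) θ x j (i / C) ∧ (grp (prt pi j) g i).Nonempty)).card := by
    rw [hS, Finset.card_filter, Fintype.sum_prod_type, Finset.sum_filter]
    refine Finset.sum_congr rfl (fun j _ => ?_)
    by_cases hj : Hd x j
    · rw [if_pos hj, Finset.card_filter]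
      refine Finset.sum_congr rfl (fun i _ => ?_)
      simp [hj]
    · rw [if_neg hj]
      apply Finset.sum_eq_zero
      intro i _
      simp [hj]
  have hfib : ∀ j, (univ.filter (fun i : Fin n =>
      ¬ typ pi dev (g * C) θ x j (i / C) ∧ (grp (prt pi j) g i).Nonempty)).card ≤
      C * (univ.filter (fun i : Fin n => ¬ typ pi dev (g * C) θ x j i ∧
        (grp (prt pi j) (g * C) i).Nonempty)).card := by
    intro j
    apply Finset.card_le_mul_card_image_of_maps_to (f := fun i : Fin n =>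
      (⟨i / C, (Nat.div_le_self _ _).trans_lt i.2⟩ : Fin n))
    · intro i hi
      rw [Finset.mem_filter] at hi ⊢
      refine ⟨Finset.mem_univ _, hi.2.1, ?_⟩
      obtain ⟨y, hy⟩ := hi.2.2
      refine ⟨y, ?_⟩
      rw [grp, Finset.mem_filter] at hy ⊢
      refine ⟨hy.1, ?_⟩
      rw [← Nat.div_div_eq_div_mul, hy.2]
    · intro b _
      have : ((univ.filter (fun i : Fin n =>
          ¬ typ pi dev (g * C) θ x j (i / C) ∧ (grp (prt pi j) g i).Nonempty)).filter
          (fun i : Fin n => (⟨i / C, (Nat.div_le_self _ _).trans_lt i.2⟩ : Fin n) = b)).card ≤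
          (Finset.Ico (b * C) (b * C + C)).card := by
        apply Finset.card_le_card_of_injOn (fun i : Fin n => (i : ℕ))
        · intro i hi
          simp only [Finset.coe_filter, Set.mem_ofPred_eq] at hi
          have h5 : (i : ℕ) / C = b := congrArg Fin.val hi.2
          rw [Finset.coe_Ico, Set.mem_Ico]
          beta_reduce
          have h6 := Nat.div_add_mod (i : ℕ) C
          have h7 := Nat.mod_lt (i : ℕ) hC
          rw [h5, mul_comm] at h6
          omega
        · intro a _ b _ h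
          exact Fin.ext h
      simpa using this
  have hSreal : (S.card : ℝ) ≤ C * k + D / (θ * g) := by
    have h5 : (S.card : ℝ) ≤ ∑ j ∈ univ.filter (Hd x), (C : ℝ) * (1 + ((dev x j).card : ℝ) /
        (θ * ((g * C : ℕ) : ℝ))) := by
      rw [hScard]
      push_cast
      apply Finset.sum_le_sum
      intro j _
      have h6 := nontyp_card pi dev (g * C) θ hθ (Nat.mul_pos hg hC) x j
      have h7 := (Nat.cast_le (α := ℝ)).2 (hfib j)
      push_cast at h6 h7 ⊢
      refine h7.trans ?_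
      exact mul_le_mul_of_nonneg_left h6 (by positivity)
    refine h5.trans ?_
    have hg' : (0:ℝ) < g := by exact_mod_cast hg
    have hC' : (0:ℝ) < C := by exact_mod_cast hC
    have h8 : ∀ j, (C : ℝ) * (1 + ((dev x j).card : ℝ) / (θ * ((g * C : ℕ) : ℝ))) =
        C + ((dev x j).card : ℝ) / (θ * g) := by
      intro j
      push_cast
      field_simp
    rw [Finset.sum_congr rfl (fun j _ => h8 j), Finset.sum_add_distrib, Finset.sum_const,
      ← Finset.sum_div, nsmul_eq_mul]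
    apply add_le_add
    · rw [mul_comm]
      apply mul_le_mul_of_nonneg_left _ hC'.le
      have : (univ.filter (Hd x)).card ≤ Fintype.card (Fin k) := Finset.card_le_univ _
      rw [Fintype.card_fin] at this
      exact_mod_cast this
    · exact div_le_div_of_nonneg_right (hD x) (by positivity)
  have h1' := (Nat.cast_le (α := ℝ)).2 h1
  have h2' := (Nat.cast_le (α := ℝ)).2 h2
  linarith

end

end Q146.LD
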