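import Mathlib

open Finset

namespace Q146.LD

/-- the ordered pairs with `E x y` are covered by directed bicliques with vertex costs at most `c` -/
def Cover {n : ℕ} (r : Fin n → Fin n → Prop) (E : Fin n → Fin n → Prop) (c : Fin n → ℝ) : Prop :=
  ∃ (κ : Type) (_ : Fintype κ) (A B : κ → Finset (Fin n)),
    (∀ k, ∀ a ∈ A k, ∀ b ∈ B k, ¬ r b a) ∧ (∀ x y, E x y → ∃ k, x ∈ A k ∧ y ∈ B k) ∧
    ∀ x, ((univ.filter (fun k => x ∈ A k ∨ x ∈ B k)).card : ℝ) ≤ c x

section
variable {n : ℕ} {r : Fin n → Fin n → Prop}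

lemma Cover.mono {E E' : Fin n → Fin n → Prop} {c c' : Fin n → ℝ} (h : Cover r E c)
    (hE : ∀ x y, E' x y → E x y) (hc : ∀ x, c x ≤ c' x) : Cover r E' c' := by
  obtain ⟨κ, i, A, B, h1, h2, h3⟩ := h
  exact ⟨κ, i, A, B, h1, fun x y hxy => h2 x y (hE x y hxy), fun x => (h3 x).trans (hc x)⟩

lemma Cover.union {E E' : Fin n → Fin n → Prop} {c c' : Fin n → ℝ} (h : Cover r E c)
    (h' : Cover r E' c') : Cover r (fun x y => E x y ∨ E' x y) (fun x => c x + c' x) := by
  obtain ⟨κ, i, A, B, h1, h2, h3⟩ := h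
  obtain ⟨κ', i', A', B', h1', h2', h3'⟩ := h'
  refine ⟨κ ⊕ κ', inferInstance, Sum.elim A A', Sum.elim B B', ?_, ?_, ?_⟩
  · rintro (k | k)
    · exact h1 k
    · exact h1' k
  · intro x y hxy
    rcases hxy with hxy | hxy
    · obtain ⟨k, hk⟩ := h2 x y hxy
      exact ⟨Sum.inl k, hk⟩
    · obtain ⟨k, hk⟩ := h2' x y hxy
      exact ⟨Sum.inr k, hk⟩
  · intro x
    have : (univ.filter (fun k : κ ⊕ κ' => x ∈ Sum.elim A A' k ∨ x ∈ Sum.elim B B' k)).card =
        (univ.filter (fun k => x ∈ A k ∨ x ∈ B k)).card +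
        (univ.filter (fun k => x ∈ A' k ∨ x ∈ B' k)).card := by
      rw [Finset.card_filter, Finset.card_filter, Finset.card_filter, Fintype.sum_sum_type]
      rfl
    rw [this]
    push_cast
    exact add_le_add (h3 x) (h3' x)

open Classical in
/-- the pattern covering: every vertex handles some groups -/
theorem handle (T : Type) [Fintype T] (G : T → Finset (Fin n)) (H : Fin n → T → Prop) (N : ℕ)
    (hG : ∀ x, (univ.filter (fun τ => x ∈ G τ)).card ≤ 1)
    (hm : ∀ τ, ((univ.filter (fun x => H x τ)).image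
      (fun x => (G τ).filter (fun y => y < x ∧ ¬ r y x))).card ≤ N)
    (hp : ∀ τ, ((univ.filter (fun x => H x τ)).image
      (fun x => (G τ).filter (fun y => x < y ∧ ¬ r x y))).card ≤ N) :
    Cover r (fun x y => y < x ∧ ¬ r y x ∧ ∃ τ, (H x τ ∧ y ∈ G τ) ∨ (H y τ ∧ x ∈ G τ))
      (fun x => ((univ.filter (fun τ => H x τ ∧ ∃ y ∈ G τ, y < x)).card : ℝ) +
        ((univ.filter (fun τ => H x τ ∧ ∃ y ∈ G τ, x < y)).card : ℝ) + 2 * N) := by
  set pm : Fin n → T → Finset (Fin n) := fun x τ => (G τ).filter (fun y => y < x ∧ ¬ r y x) with hpm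
  set pp : Fin n → T → Finset (Fin n) := fun x τ => (G τ).filter (fun y => x < y ∧ ¬ r x y) with hpp
  refine ⟨T × Finset (Fin n) × Bool, inferInstance,
    fun k => if k.2.2 then (univ.filter (fun a => a ∈ k.2.1 ∧ ∃ x', H x' k.1 ∧ pp x' k.1 = k.2.1))
      else univ.filter (fun x => H x k.1 ∧ pm x k.1 = k.2.1 ∧ k.2.1.Nonempty),
    fun k => if k.2.2 then univ.filter (fun x => H x k.1 ∧ pp x k.1 = k.2.1 ∧ k.2.1.Nonempty)
      else (univ.filter (fun a => a ∈ k.2.1 ∧ ∃ x', H x' k.1 ∧ pm x' k.1 = k.2.1)), ?_, ?_, ?_⟩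
  · rintro ⟨τ, P, b⟩ a ha c hc
    cases b
    · simp only [Bool.false_eq_true, if_false, Finset.mem_filter, Finset.mem_univ, true_and] at ha hc
      have : c ∈ pm a τ := by rw [ha.2.1]; exact hc.1
      rw [hpm] at this
      simp only [Finset.mem_filter] at this
      exact this.2.2
    · simp only [if_true, Finset.mem_filter, Finset.mem_univ, true_and] at ha hc
      have : a ∈ pp c τ := by rw [hc.2.1]; exact ha.1
      rw [hpp] at this
      simp only [Finset.mem_filter] at this
      exact this.2.2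
  · rintro x y ⟨hyx, hr, τ, h | h⟩
    · refine ⟨(τ, pm x τ, false), ?_, ?_⟩
      · simp only [Bool.false_eq_true, if_false, Finset.mem_filter, Finset.mem_univ, true_and]
        refine ⟨h.1, ⟨y, ?_⟩⟩
        simp only [hpm, Finset.mem_filter]
        exact ⟨h.2, hyx, hr⟩
      · simp only [Bool.false_eq_true, if_false, Finset.mem_filter, Finset.mem_univ, true_and]
        refine ⟨?_, x, h.1, rfl⟩
        simp only [hpm, Finset.mem_filter]
        exact ⟨h.2, hyx, hr⟩
    · refine ⟨(τ, pp y τ, true), ?_, ?_⟩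
      · simp only [if_true, Finset.mem_filter, Finset.mem_univ, true_and]
        refine ⟨?_, y, h.1, rfl⟩
        simp only [hpp, Finset.mem_filter]
        exact ⟨h.2, hyx, hr⟩
      · simp only [if_true, Finset.mem_filter, Finset.mem_univ, true_and]
        refine ⟨h.1, ⟨x, ?_⟩⟩
        simp only [hpp, Finset.mem_filter]
        exact ⟨h.2, hyx, hr⟩
  · intro x
    set S1 := univ.filter (fun τ => H x τ ∧ ∃ y ∈ G τ, y < x)
    set S2 := univ.filter (fun τ => H x τ ∧ ∃ y ∈ G τ, x < y)
    set S3 := univ.filter (fun τ => x ∈ G τ)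
    have hsub : (univ.filter (fun k : T × Finset (Fin n) × Bool =>
        x ∈ (if k.2.2 then (univ.filter (fun a => a ∈ k.2.1 ∧ ∃ x', H x' k.1 ∧ pp x' k.1 = k.2.1))
          else univ.filter (fun x => H x k.1 ∧ pm x k.1 = k.2.1 ∧ k.2.1.Nonempty)) ∨
        x ∈ (if k.2.2 then univ.filter (fun x => H x k.1 ∧ pp x k.1 = k.2.1 ∧ k.2.1.Nonempty)
          else (univ.filter (fun a => a ∈ k.2.1 ∧ ∃ x', H x' k.1 ∧ pm x' k.1 = k.2.1))))) ⊆
        ((S1.image (fun τ => (τ, pm x τ, false)) ∪ S2.image (fun τ => (τ, pp x τ, true))) ∪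
        (S3.biUnion (fun τ => ((univ.filter (fun x => H x τ)).image (fun x => pm x τ)).image
          (fun P => (τ, P, false))))) ∪
        (S3.biUnion (fun τ => ((univ.filter (fun x => H x τ)).image (fun x => pp x τ)).image
          (fun P => (τ, P, true)))) := by
      rintro ⟨τ, P, b⟩ hk
      simp only [Finset.mem_union, Finset.mem_biUnion, Finset.mem_image]
      cases b
      · simp only [Bool.false_eq_true, if_false, Finset.mem_filter, Finset.mem_univ, true_and] at hk
        rcases hk with ⟨h1, h2, h3⟩ | ⟨h1, x', h2, h3⟩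
        · left; left; left
          refine ⟨τ, ?_, by rw [h2]⟩
          simp only [S1, Finset.mem_filter, Finset.mem_univ, true_and]
          refine ⟨h1, ?_⟩
          obtain ⟨y, hy⟩ := h3
          rw [← h2, hpm] at hy
          simp only [Finset.mem_filter] at hy
          exact ⟨y, hy.1, hy.2.1⟩
        · left; right
          refine ⟨τ, ?_, P, ⟨x', by simpa using h2, h3⟩, rfl⟩
          simp only [S3, Finset.mem_filter, Finset.mem_univ, true_and]
          rw [← h3, hpm] at h1
          simp only [Finset.mem_filter] at h1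
          exact h1.1
      · simp only [if_true, Finset.mem_filter, Finset.mem_univ, true_and] at hk
        rcases hk with ⟨h1, x', h2, h3⟩ | ⟨h1, h2, h3⟩
        · right
          refine ⟨τ, ?_, P, ⟨x', by simpa using h2, h3⟩, rfl⟩
          simp only [S3, Finset.mem_filter, Finset.mem_univ, true_and]
          rw [← h3, hpp] at h1
          simp only [Finset.mem_filter] at h1
          exact h1.1
        · left; left; right
          refine ⟨τ, ?_, by rw [h2]⟩
          simp only [S2, Finset.mem_filter, Finset.mem_univ, true_and]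
          refine ⟨h1, ?_⟩
          obtain ⟨y, hy⟩ := h3
          rw [← h2, hpp] at hy
          simp only [Finset.mem_filter] at hy
          exact ⟨y, hy.1, hy.2.1⟩
    have hS3 : S3.card ≤ 1 := hG x
    have hb1 : (S3.biUnion (fun τ => ((univ.filter (fun x => H x τ)).image (fun x => pm x τ)).image
          (fun P => (τ, P, false)))).card ≤ N := by
      refine (Finset.card_biUnion_le).trans ?_
      refine (Finset.sum_le_sum (fun τ _ => (Finset.card_image_le).trans (hm τ))).trans ?_
      rw [Finset.sum_const, smul_eq_mul]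
      calc S3.card * N ≤ 1 * N := Nat.mul_le_mul_right _ hS3
        _ = N := one_mul _
    have hb2 : (S3.biUnion (fun τ => ((univ.filter (fun x => H x τ)).image (fun x => pp x τ)).image
          (fun P => (τ, P, true)))).card ≤ N := by
      refine (Finset.card_biUnion_le).trans ?_
      refine (Finset.sum_le_sum (fun τ _ => (Finset.card_image_le).trans (hp τ))).trans ?_
      rw [Finset.sum_const, smul_eq_mul]
      calc S3.card * N ≤ 1 * N := Nat.mul_le_mul_right _ hS3
        _ = N := one_mul _
    have hfin := Finset.card_le_card hsub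
    have hu1 := hfin.trans (Finset.card_union_le _ _)
    have hu2 := Finset.card_union_le (S1.image (fun τ => (τ, pm x τ, false)) ∪
      S2.image (fun τ => (τ, pp x τ, true)))
        (S3.biUnion (fun τ => ((univ.filter (fun x => H x τ)).image (fun x => pm x τ)).image
          (fun P => (τ, P, false))))
    have hu3 := Finset.card_union_le (S1.image (fun τ => (τ, pm x τ, false)))
      (S2.image (fun τ => (τ, pp x τ, true)))
    have hi1 : (S1.image (fun τ => (τ, pm x τ, false))).card ≤ S1.card := Finset.card_image_le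
    have hi2 : (S2.image (fun τ => (τ, pp x τ, true))).card ≤ S2.card := Finset.card_image_le
    have hfinal : _ ≤ S1.card + S2.card + 2 * N := hu1.trans (by omega)
    have hfinal' : ((_ : ℕ) : ℝ) ≤ ((S1.card + S2.card + 2 * N : ℕ) : ℝ) := Nat.cast_le.2 hfinal
    push_cast at hfinal'
    exact hfinal'

end

end Q146.LD
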