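import Pool.Agent.Q146.LDim.Assemble

open Finset

namespace Q146.LD

section
variable {n k : ℕ}

open Classical in
/-- few vertices are exceptional for many parts -/
lemma few_exc (r : Fin n → Fin n → Prop) (pi : Fin n → Fin k) (δ δ' η : ℝ) (hδ : 0 ≤ δ)
    (hδ' : 0 < δ') (hη : 0 < η) (hk : 0 < k) :
    (((univ.filter (fun x : Fin n => η * k < ((univ.filter (fun j : Fin k =>
      (pi x ≠ j ∧ (dn r pi (pi x) j ≤ δ ∨ 1 - δ ≤ dn r pi (pi x) j)) ∧
      δ' * (prt pi j).card < ((devs r pi (fun a b => dn r pi a b ≤ δ) x j).card : ℝ))).card : ℝ))).card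
      : ℕ) : ℝ) ≤ δ / (δ' * η) * n := by
  set dv := devs r pi (fun a b => dn r pi a b ≤ δ) with hdv
  set P : Fin n → Fin k → Prop := fun x j =>
      (pi x ≠ j ∧ (dn r pi (pi x) j ≤ δ ∨ 1 - δ ≤ dn r pi (pi x) j)) ∧
      δ' * (prt pi j).card < ((dv x j).card : ℝ) with hP
  set Z := univ.filter (fun x : Fin n => η * k < ((univ.filter (fun j : Fin k => P x j)).card : ℝ))
    with hZ
  have hk' : (0:ℝ) < k := by exact_mod_cast hk
  -- total count
  have h1 : (Z.card : ℝ) * (η * k) ≤ ∑ x : Fin n, ((univ.filter (fun j : Fin k => P x j)).card : ℝ) := by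
    calc (Z.card : ℝ) * (η * k) = ∑ x ∈ Z, (η * k) := by rw [Finset.sum_const, nsmul_eq_mul]
      _ ≤ ∑ x ∈ Z, ((univ.filter (fun j : Fin k => P x j)).card : ℝ) := by
        apply Finset.sum_le_sum
        intro x hx
        rw [hZ, Finset.mem_filter] at hx
        exact hx.2.le
      _ ≤ _ := Finset.sum_le_sum_of_subset_of_nonneg (Finset.subset_univ _)
        (fun _ _ _ => Nat.cast_nonneg _)
  have h2 : ∑ x : Fin n, ((univ.filter (fun j : Fin k => P x j)).card : ℝ) =
      ∑ j : Fin k, ∑ i : Fin k, (((prt pi i).filter (fun x => P x j)).card : ℝ) := by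
    have e1 : ∀ x, ((univ.filter (fun j : Fin k => P x j)).card : ℝ) =
        ∑ j : Fin k, (if P x j then (1:ℝ) else 0) := by
      intro x; rw [Finset.sum_boole]
    rw [Finset.sum_congr rfl (fun x _ => e1 x), Finset.sum_comm]
    refine Finset.sum_congr rfl (fun j _ => ?_)
    rw [← Finset.sum_fiberwise (univ : Finset (Fin n)) pi]
    refine Finset.sum_congr rfl (fun i _ => ?_)
    rw [Finset.sum_boole]
    rfl
  have h3 : ∀ i j : Fin k, (((prt pi i).filter (fun x => P x j)).card : ℝ) ≤
      δ / δ' * (prt pi i).card := by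
    intro i j
    rcases Nat.eq_zero_or_pos ((prt pi j).card) with h0 | h0
    · have : (prt pi i).filter (fun x => P x j) = ∅ := by
        rw [Finset.filter_eq_empty_iff]
        intro x _ hc
        have h4 := hc.2
        have h5 : dv x j = ∅ := by
          rw [hdv, devs]
          split_ifs <;> rw [Finset.card_eq_zero.1 h0] <;> rfl
        rw [h5, h0] at h4
        simp at h4
      rw [this]
      simp only [Finset.card_empty, Nat.cast_zero]
      positivity
    have h0' : (0:ℝ) < (prt pi j).card := by exact_mod_cast h0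
    by_cases hij : i ≠ j ∧ (dn r pi i j ≤ δ ∨ 1 - δ ≤ dn r pi i j)
    · have h4 := dev_sum r pi δ hδ i j hij.1 hij.2
      have h5 : (((prt pi i).filter (fun x => P x j)).card : ℝ) * (δ' * (prt pi j).card) ≤
          ∑ x ∈ prt pi i, ((dv x j).card : ℝ) := by
        calc (((prt pi i).filter (fun x => P x j)).card : ℝ) * (δ' * (prt pi j).card)
            = ∑ x ∈ (prt pi i).filter (fun x => P x j), (δ' * (prt pi j).card) := by
              rw [Finset.sum_const, nsmul_eq_mul]
          _ ≤ ∑ x ∈ (prt pi i).filter (fun x => P x j), ((dv x j).card : ℝ) := by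
              apply Finset.sum_le_sum
              intro x hx
              exact (Finset.mem_filter.1 hx).2.2.le
          _ ≤ _ := Finset.sum_le_sum_of_subset_of_nonneg (Finset.filter_subset _ _)
              (fun _ _ _ => Nat.cast_nonneg _)
      have h6 := h5.trans h4
      rw [div_mul_eq_mul_div, le_div_iff₀ hδ']
      have h7 : ((((prt pi i).filter (fun x => P x j)).card : ℝ) * δ') * (prt pi j).card ≤
          (δ * (prt pi i).card) * (prt pi j).card := by linarith
      exact le_of_mul_le_mul_right h7 h0'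
    · have : (prt pi i).filter (fun x => P x j) = ∅ := by
        rw [Finset.filter_eq_empty_iff]
        intro x hx hc
        rw [prt, Finset.mem_filter] at hx
        have h4 := hc.1
        rw [hx.2] at h4
        exact hij h4
      rw [this]
      simp only [Finset.card_empty, Nat.cast_zero]
      positivity
  have h4 : ∑ j : Fin k, ∑ i : Fin k, (((prt pi i).filter (fun x => P x j)).card : ℝ) ≤
      k * (δ / δ' * n) := by
    calc _ ≤ ∑ j : Fin k, ∑ i : Fin k, δ / δ' * (prt pi i).card :=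
          Finset.sum_le_sum (fun j _ => Finset.sum_le_sum (fun i _ => h3 i j))
      _ = k * (δ / δ' * n) := by
        rw [Finset.sum_const, ← Finset.mul_sum, Finset.card_univ, Fintype.card_fin, nsmul_eq_mul,
          ← Nat.cast_sum, sum_card_prt]
  rw [h2] at h1
  have h5 := h1.trans h4
  have h6 : (Z.card : ℝ) * η ≤ δ / δ' * n := by
    have : ((Z.card : ℝ) * η) * k ≤ (δ / δ' * n) * k := by linarith
    exact le_of_mul_le_mul_right this hk'
  have h7 : δ / (δ' * η) * n = (δ / δ' * n) / η := by field_simp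
  rw [h7, le_div_iff₀ hη]
  exact h6

open Classical in
theorem upper_fixed (r : Fin n → Fin n → Prop) (hr : ∀ x y, r x y → x ≤ y)
    (htr : ∀ x y z, r x y → r y z → r x z) (pi : Fin n → Fin k) (ε δ δ' η θ : ℝ) (g C N q : ℕ)
    (hε : 0 < ε) (hε1 : 21 * ε ≤ 1) (hδ : 11 * ε ≤ δ) (hδ' : 0 < δ') (hη : 0 < η) (hθ : 0 < θ)
    (hg : 0 < g) (hC : 0 < C) (hq : 0 < q) (hk : 0 < k)
    (s : ℕ) (hs : 3 ≤ s) (hS1 : ∀ i, s ≤ (prt pi i).card)
    (hS2 : ∀ i, (prt pi i).card ≤ s + 1)
    (hnu : ∀ F : Finset (Fin k × Fin k), (∀ p ∈ F, p.1 < p.2 ∧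
      ¬ (cg r).IsUniform ε (prt pi p.1) (prt pi p.2)) → (F.card : ℝ) ≤ ε * k ^ 2)
    (hN : ∀ S : Finset (Fin n), S.card ≤ g * C →
      (S.powerset.filter (fun P => (P.card : ℝ) ≤ θ * ((g * C : ℕ) : ℝ))).card ≤ N) :
    Cover r (fun x y => x ≠ y ∧ ¬ r y x)
      (fun _ => (n:ℝ) / g * (1/4 + (δ / (δ' * η) + 2 * ε + η + 2 / k + 1 / C + 2 * δ' / θ)) +
        ((n:ℝ) / q + q) + 6 * 2 ^ g + 4 * N + (9 + (3 * (1/4 + 2 * ε + η) + 3 + 2 * C) * k)) := by
  have hδ0 : 0 ≤ δ := by nlinarith
  set lo : Fin k → Fin k → Prop := fun a b => dn r pi a b ≤ δ with hlo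
  set dv := devs r pi lo with hdv
  obtain ⟨ch, hch⟩ : ∃ ch : Fin k → Fin k → Prop, ∀ a b, ch a b ↔
    (a ≠ b ∧ (dn r pi a b ≤ δ ∨ 1 - δ ≤ dn r pi a b)) := ⟨_, fun _ _ => Iff.rfl⟩
  obtain ⟨exc, hexc⟩ : ∃ exc : Fin n → Fin k → Prop, ∀ x j, exc x j ↔
    δ' * (prt pi j).card < ((dv x j).card : ℝ) := ⟨_, fun _ _ => Iff.rfl⟩
  set Z := univ.filter (fun x : Fin n => η * k < ((univ.filter (fun j : Fin k =>
      ch (pi x) j ∧ exc x j)).card : ℝ)) with hZ
  have hZc : (Z.card : ℝ) ≤ δ / (δ' * η) * n := by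
    have h := few_exc r pi δ δ' η hδ0 hδ' hη hk
    have e : Z = (univ.filter (fun x : Fin n => η * k < ((univ.filter (fun j : Fin k =>
      (pi x ≠ j ∧ (dn r pi (pi x) j ≤ δ ∨ 1 - δ ≤ dn r pi (pi x) j)) ∧
      δ' * (prt pi j).card < ((devs r pi (fun a b => dn r pi a b ≤ δ) x j).card : ℝ))).card : ℝ))) := by
      rw [hZ]
      apply Finset.filter_congr
      intro x _
      have : (univ.filter (fun j : Fin k => ch (pi x) j ∧ exc x j)) = (univ.filter (fun j : Fin k =>
        (pi x ≠ j ∧ (dn r pi (pi x) j ≤ δ ∨ 1 - δ ≤ dn r pi (pi x) j)) ∧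
        δ' * (prt pi j).card < ((devs r pi (fun a b => dn r pi a b ≤ δ) x j).card : ℝ))) := by
        apply Finset.filter_congr
        intro j _
        rw [hch, hexc]
      rw [this]
    rw [e]
    exact h
  obtain ⟨O, hO1, hO2⟩ := orient_mid r hr htr pi ε δ hε hε1 hδ s hs hS1 hS2 hnu
  -- the covers
  have c0 := forward hr q hq
  have c1 := handle_set (r := r) Z g hg
  obtain ⟨Hd, hHd⟩ : ∃ Hd : Fin n → Fin k → Prop, ∀ x j, Hd x j ↔
    (j = pi x ∨ O (pi x) j ∨ (x ∉ Z ∧ ch (pi x) j ∧ exc x j)) := ⟨_, fun _ _ => Iff.rfl⟩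
  have c2 := handle_parts (r := r) pi g hg Hd
  have c3 := handle_big hr pi lo ch (fun a b h => ((hch a b).1 h).1) (g * C) (Nat.mul_pos hg hC)
    θ hθ.le N hN
  obtain ⟨Hd', hHd'⟩ : ∃ Hd' : Fin n → Fin k → Prop, ∀ x j, Hd' x j ↔
    (x ∉ Z ∧ ch (pi x) j ∧ ¬ exc x j) := ⟨_, fun _ _ => Iff.rfl⟩
  have c4 := handle_nontyp (r := r) pi dv g C hg hC θ hθ Hd' (δ' * n) (by
    intro x
    calc ∑ j ∈ univ.filter (Hd' x), ((dv x j).card : ℝ)
        ≤ ∑ j ∈ univ.filter (Hd' x), δ' * (prt pi j).card := by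
          apply Finset.sum_le_sum
          intro j hj
          rw [Finset.mem_filter, hHd', hexc] at hj
          exact not_lt.1 hj.2.2.2
      _ ≤ ∑ j, δ' * (prt pi j).card := Finset.sum_le_sum_of_subset_of_nonneg
          (Finset.subset_univ _) (fun _ _ _ => by positivity)
      _ = δ' * n := by rw [← Finset.mul_sum, ← Nat.cast_sum, sum_card_prt])
  have call := (((c0.union c1).union c2).union c3).union c4
  refine call.mono ?_ ?_
  · rintro x y ⟨hne, hnr⟩
    rcases lt_or_gt_of_ne hne with hlt | hlt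
    · exact Or.inl (Or.inl (Or.inl (Or.inl hlt)))
    by_cases hz : x ∈ Z ∨ y ∈ Z
    · exact Or.inl (Or.inl (Or.inl (Or.inr ⟨hlt, hnr, hz⟩)))
    rw [not_or] at hz
    by_cases h2 : Hd x (pi y) ∨ Hd y (pi x)
    · exact Or.inl (Or.inl (Or.inr ⟨hlt, hnr, h2⟩))
    rw [not_or, hHd, hHd] at h2
    push Not at h2
    obtain ⟨⟨h21, h22, h23⟩, -, h24, -⟩ := h2
    have hpne : pi x ≠ pi y := fun h => h21 h.symm
    have hcheap : ch (pi x) (pi y) := by
      rw [hch]
      refine ⟨hpne, ?_⟩
      by_contra hcon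
      rw [not_or, not_le, not_le] at hcon
      rcases hO1 _ _ hpne hcon.1 hcon.2 with h | h
      · exact h22 h
      · exact h24 h
    have hnexc : ¬ exc x (pi y) := h23 hz.1 hcheap
    obtain ⟨i3, hi3⟩ := mem_group pi (g * C) y
    by_cases ht : typ pi dv (g * C) θ x (pi y) i3
    · exact Or.inl (Or.inr ⟨hlt, hnr, (pi y, i3), Or.inl ⟨⟨hcheap, ht⟩, hi3⟩⟩)
    · obtain ⟨i4, hi4⟩ := mem_group pi g y
      refine Or.inr ⟨hlt, hnr, (pi y, i4), Or.inl ⟨⟨(hHd' _ _).2 ⟨hz.1, hcheap, hnexc⟩, ?_⟩, hi4⟩⟩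
      have h34 : (i4 : ℕ) / C = i3 := by
        rw [grp, Finset.mem_filter] at hi3 hi4
        rw [← hi3.2, ← hi4.2, Nat.div_div_eq_div_mul]
      simp only
      rw [h34]
      exact ht
  · intro x
    have hgR : (0:ℝ) < g := by exact_mod_cast hg
    have hCR : (0:ℝ) < C := by exact_mod_cast hC
    have hkR : (0:ℝ) < k := by exact_mod_cast hk
    have hnk : ((s:ℝ)) ≤ n / k := by
      rw [le_div_iff₀ hkR]
      have h1 : k * s ≤ ∑ j, (prt pi j).card := by
        calc k * s = ∑ j : Fin k, s := by simp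
          _ ≤ _ := Finset.sum_le_sum (fun j _ => hS1 j)
      rw [sum_card_prt] at h1
      have := (Nat.cast_le (α := ℝ)).2 h1
      push_cast at this
      linarith
    have hn0 : (0:ℝ) ≤ n := Nat.cast_nonneg _
    -- costs
    have e0 : ((n / q + 1 + q : ℕ) : ℝ) ≤ (n:ℝ) / q + q + 1 := by
      push_cast
      have := Nat.cast_div_le (α := ℝ) (m := n) (n := q)
      linarith
    have e1 : ((Z.card / g + 2 : ℕ) : ℝ) ≤ δ / (δ' * η) * n / g + 2 := by
      push_cast
      have := Nat.cast_div_le (α := ℝ) (m := Z.card) (n := g)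
      have h2 : (Z.card : ℝ) / g ≤ δ / (δ' * η) * n / g := div_le_div_of_nonneg_right hZc hgR.le
      linarith
    have hcnt : ((univ.filter (Hd x)).card : ℝ) ≤ 2 + k / 4 + 2 * ε * k + η * k := by
      have hsub : univ.filter (Hd x) ⊆ ({pi x} ∪ univ.filter (O (pi x))) ∪
          univ.filter (fun j => x ∉ Z ∧ ch (pi x) j ∧ exc x j) := by
        intro j hj
        rw [Finset.mem_filter, hHd] at hj
        rw [Finset.mem_union, Finset.mem_union, Finset.mem_singleton, Finset.mem_filter,
          Finset.mem_filter]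
        rcases hj.2 with h | h | h
        · exact Or.inl (Or.inl h)
        · exact Or.inl (Or.inr ⟨Finset.mem_univ _, h⟩)
        · exact Or.inr ⟨Finset.mem_univ _, h⟩
      have h1 := (Finset.card_le_card hsub).trans (Finset.card_union_le _ _)
      have h2 := Finset.card_union_le ({pi x} : Finset (Fin k)) (univ.filter (O (pi x)))
      have h3 := hO2 (pi x) (univ.filter (O (pi x))) (fun b hb => (Finset.mem_filter.1 hb).2)
      have h4 : ((univ.filter (fun j => x ∉ Z ∧ ch (pi x) j ∧ exc x j)).card : ℝ) ≤ η * k := by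
        by_cases hx : x ∈ Z
        · have : univ.filter (fun j => x ∉ Z ∧ ch (pi x) j ∧ exc x j) = ∅ := by
            rw [Finset.filter_eq_empty_iff]
            intro j _ hc
            exact hc.1 hx
          rw [this]
          simp only [Finset.card_empty, Nat.cast_zero]
          positivity
        · have h5 : ¬ η * k < ((univ.filter (fun j : Fin k => ch (pi x) j ∧ exc x j)).card : ℝ) := by
            intro hc
            exact hx (by rw [hZ, Finset.mem_filter]; exact ⟨Finset.mem_univ _, hc⟩)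
          rw [not_lt] at h5
          refine le_trans ?_ h5
          apply Nat.cast_le.2
          apply Finset.card_le_card
          intro j hj
          rw [Finset.mem_filter] at hj ⊢
          exact ⟨hj.1, hj.2.2⟩
      have h1' := (Nat.cast_le (α := ℝ)).2 h1
      have h2' := (Nat.cast_le (α := ℝ)).2 h2
      rw [Finset.card_singleton] at h2'
      push_cast at h1' h2'
      linarith
    have ha : ∀ (j : Fin k) (h : ℕ), 0 < h → (((prt pi j).card / h + 2 : ℕ) : ℝ) ≤ n / (k * h) + 3 := by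
      intro j h hh
      have hhR : (1:ℝ) ≤ h := by exact_mod_cast hh
      have hh0 : (0:ℝ) < h := by linarith
      push_cast
      have h1 := Nat.cast_div_le (α := ℝ) (m := (prt pi j).card) (n := h)
      have h2 : ((prt pi j).card : ℝ) ≤ n / k + 1 := by
        have := (Nat.cast_le (α := ℝ)).2 (hS2 j)
        push_cast at this
        linarith
      have h3 : ((prt pi j).card : ℝ) / h ≤ (n / k + 1) / h := div_le_div_of_nonneg_right h2 hh0.le
      have h4 : ((n:ℝ) / k + 1) / h = n / (k * h) + 1 / h := by field_simp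
      have h5 : (1:ℝ) / h ≤ 1 := by rw [div_le_one hh0]; exact hhR
      linarith
    have e2 : ((∑ j ∈ univ.filter (Hd x), ((prt pi j).card / g + 2) : ℕ) : ℝ) ≤
        (2 + k / 4 + 2 * ε * k + η * k) * (n / (k * g) + 3) := by
      push_cast
      calc ∑ j ∈ univ.filter (Hd x), ((((prt pi j).card / g : ℕ) : ℝ) + 2)
          ≤ ∑ j ∈ univ.filter (Hd x), ((n:ℝ) / (k * g) + 3) := by
            apply Finset.sum_le_sum
            intro j _
            have := ha j g hg
            push_cast at this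
            exact this
        _ = (univ.filter (Hd x)).card * ((n:ℝ) / (k * g) + 3) := by
            rw [Finset.sum_const, nsmul_eq_mul]
        _ ≤ _ := mul_le_mul_of_nonneg_right hcnt (by positivity)
    have e3 : ((∑ j ∈ univ.filter (ch (pi x)), ((prt pi j).card / (g * C) + 2) : ℕ) : ℝ) ≤
        k * (n / (k * ((g * C : ℕ) : ℝ)) + 3) := by
      push_cast
      calc ∑ j ∈ univ.filter (ch (pi x)), ((((prt pi j).card / (g * C) : ℕ) : ℝ) + 2)
          ≤ ∑ j ∈ univ.filter (ch (pi x)), ((n:ℝ) / (k * (g * C)) + 3) := by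
            apply Finset.sum_le_sum
            intro j _
            have := ha j (g * C) (Nat.mul_pos hg hC)
            push_cast at this
            exact this
        _ = (univ.filter (ch (pi x))).card * ((n:ℝ) / (k * (g * C)) + 3) := by
            rw [Finset.sum_const, nsmul_eq_mul]
        _ ≤ _ := by
            apply mul_le_mul_of_nonneg_right _ (by positivity)
            have : (univ.filter (ch (pi x))).card ≤ Fintype.card (Fin k) := Finset.card_le_univ _
            rw [Fintype.card_fin] at this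
            exact_mod_cast this
    have f2 : (2 + (k:ℝ) / 4 + 2 * ε * k + η * k) * (n / (k * g) + 3) =
        n / g * (1/4 + 2 * ε + η + 2 / k) + 6 + 3 * (1/4 + 2 * ε + η) * k := by
      field_simp
      ring
    have f3 : (k:ℝ) * (n / (k * ((g * C : ℕ) : ℝ)) + 3) = n / g * (1 / C) + 3 * k := by
      push_cast
      field_simp
    have f4 : 2 * ((C:ℝ) * k + δ' * n / (θ * g)) = n / g * (2 * δ' / θ) + 2 * C * k := by
      field_simp
      ring
    have f1 : δ / (δ' * η) * n / g = n / g * (δ / (δ' * η)) := by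
      field_simp
    rw [f2] at e2
    rw [f3] at e3
    rw [f4]
    rw [f1] at e1
    push_cast at e0 e1 e2 e3 ⊢
    linarith

end

end Q146.LD
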