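import Pool.Agent.Q146.LDim.Cover

open Finset

namespace Q146.LD

section
variable {n : ℕ}

/-- rank -/
def rk (Y : Finset (Fin n)) (x : Fin n) : ℕ := (Y.filter (· < x)).card

/-- consecutive groups -/
def grp (Y : Finset (Fin n)) (g i : ℕ) : Finset (Fin n) := Y.filter (fun y => rk Y y / g = i)

lemma rk_mono (Y : Finset (Fin n)) {x y : Fin n} (h : x ≤ y) : rk Y x ≤ rk Y y := by
  apply Finset.card_le_card
  intro z hz
  rw [Finset.mem_filter] at hz ⊢
  exact ⟨hz.1, hz.2.trans_le h⟩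

lemma rk_lt (Y : Finset (Fin n)) {x y : Fin n} (hy : y ∈ Y) (h : y < x) : rk Y y < rk Y x := by
  apply Finset.card_lt_card
  rw [Finset.ssubset_iff_of_subset]
  · exact ⟨y, by simp [hy, h], by simp⟩
  · intro z hz
    rw [Finset.mem_filter] at hz ⊢
    exact ⟨hz.1, hz.2.trans h⟩

lemma rk_le (Y : Finset (Fin n)) (x : Fin n) : rk Y x ≤ Y.card :=
  Finset.card_le_card (Finset.filter_subset _ _)

lemma rk_lt_card (Y : Finset (Fin n)) {y : Fin n} (hy : y ∈ Y) : rk Y y < Y.card := by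
  apply Finset.card_lt_card
  rw [Finset.ssubset_iff_of_subset (Finset.filter_subset _ _)]
  exact ⟨y, hy, by simp⟩

lemma rk_inj (Y : Finset (Fin n)) {x y : Fin n} (hx : x ∈ Y) (hy : y ∈ Y) (h : rk Y x = rk Y y) :
    x = y := by
  rcases lt_trichotomy x y with h1 | h1 | h1
  · exact absurd h (rk_lt Y hx h1).ne
  · exact h1
  · exact absurd h (rk_lt Y hy h1).ne'

lemma card_grp (Y : Finset (Fin n)) {g : ℕ} (hg : 0 < g) (i : ℕ) : (grp Y g i).card ≤ g := by
  have : (grp Y g i).card ≤ (Finset.Ico (i * g) (i * g + g)).card := by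
    apply Finset.card_le_card_of_injOn (rk Y)
    · intro y hy
      simp only [grp, Finset.coe_filter, Set.mem_ofPred_eq] at hy
      rw [Finset.coe_Ico, Set.mem_Ico]
      have h1 := Nat.div_add_mod (rk Y y) g
      have h2 := Nat.mod_lt (rk Y y) hg
      rw [hy.2, mul_comm] at h1
      omega
    · intro x hx y hy h
      simp only [grp, Finset.coe_filter, Set.mem_ofPred_eq] at hx hy
      exact rk_inj Y hx.1 hy.1 h
  simpa using this

lemma before_card (Y : Finset (Fin n)) (g : ℕ) (x : Fin n) :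
    (univ.filter (fun i : Fin n => ∃ y ∈ grp Y g i, y < x)).card ≤ rk Y x / g + 1 := by
  rw [← Finset.card_range (rk Y x / g + 1)]
  apply Finset.card_le_card_of_injOn (fun i : Fin n => (i : ℕ))
  · intro i hi
    simp only [Finset.coe_filter, Finset.mem_univ, true_and, Set.mem_ofPred_eq] at hi
    obtain ⟨y, hy, hyx⟩ := hi
    rw [grp, Finset.mem_filter] at hy
    rw [Finset.coe_range, Set.mem_Iio]
    beta_reduce
    rw [← hy.2]
    exact Nat.lt_succ_of_le (Nat.div_le_div_right (rk_mono Y hyx.le))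
  · intro i _ j _ h
    exact Fin.ext h

lemma after_card (Y : Finset (Fin n)) (g : ℕ) (x : Fin n) :
    (univ.filter (fun i : Fin n => ∃ y ∈ grp Y g i, x < y)).card ≤
      Y.card / g + 1 - rk Y x / g := by
  rw [← Nat.card_Ico]
  apply Finset.card_le_card_of_injOn (fun i : Fin n => (i : ℕ))
  · intro i hi
    simp only [Finset.coe_filter, Finset.mem_univ, true_and, Set.mem_ofPred_eq] at hi
    obtain ⟨y, hy, hyx⟩ := hi
    rw [grp, Finset.mem_filter] at hy
    rw [Finset.coe_Ico, Set.mem_Ico]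
    beta_reduce
    rw [← hy.2]
    exact ⟨Nat.div_le_div_right (rk_mono Y hyx.le),
      Nat.lt_succ_of_le (Nat.div_le_div_right (rk_le Y y))⟩
  · intro i _ j _ h
    exact Fin.ext h

lemma touch_card (Y : Finset (Fin n)) (g : ℕ) (x : Fin n) :
    (univ.filter (fun i : Fin n => ∃ y ∈ grp Y g i, y < x)).card +
    (univ.filter (fun i : Fin n => ∃ y ∈ grp Y g i, x < y)).card ≤ Y.card / g + 2 := by
  have h1 := before_card Y g x
  have h2 := after_card Y g x
  have h3 : rk Y x / g ≤ Y.card / g := Nat.div_le_div_right (rk_le Y x)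
  omega

/-- parts -/
def prt {k : ℕ} (pi : Fin n → Fin k) (j : Fin k) : Finset (Fin n) := univ.filter (fun x => pi x = j)

lemma group_unique {k : ℕ} (pi : Fin n → Fin k) (g : ℕ) (x : Fin n) :
    (univ.filter (fun τ : Fin k × Fin n => x ∈ grp (prt pi τ.1) g τ.2)).card ≤ 1 := by
  rw [Finset.card_le_one]
  rintro ⟨j, i⟩ h ⟨j', i'⟩ h'
  simp only [grp, prt, Finset.mem_filter, Finset.mem_univ, true_and] at h h'
  obtain ⟨rfl, h2⟩ := h
  obtain ⟨rfl, h2'⟩ := h'
  rw [Prod.mk.injEq]
  exact ⟨rfl, Fin.ext (h2.symm.trans h2')⟩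

lemma mem_group {k : ℕ} (pi : Fin n → Fin k) (g : ℕ) (x : Fin n) :
    ∃ i : Fin n, x ∈ grp (prt pi (pi x)) g i := by
  have hx : x ∈ prt pi (pi x) := by simp [prt]
  have h1 : rk (prt pi (pi x)) x < n := by
    refine (rk_lt_card _ hx).trans_le ?_
    calc (prt pi (pi x)).card ≤ Fintype.card (Fin n) := Finset.card_le_univ _
      _ = n := Fintype.card_fin n
  refine ⟨⟨rk (prt pi (pi x)) x / g, (Nat.div_le_self _ _).trans_lt h1⟩, ?_⟩
  simp [grp, hx]

lemma pat_small (S : Finset (Fin n)) (g : ℕ) (hS : S.card ≤ g)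
    (X : Finset (Fin n)) (Q : Fin n → Fin n → Prop) [∀ x, DecidablePred (Q x)] :
    (X.image (fun x => S.filter (fun y => Q x y))).card ≤ 2 ^ g := by
  have : (X.image (fun x => S.filter (fun y => Q x y))) ⊆ S.powerset := by
    intro P hP
    rw [Finset.mem_image] at hP
    obtain ⟨x, _, rfl⟩ := hP
    rw [Finset.mem_powerset]
    exact Finset.filter_subset _ _
  refine (Finset.card_le_card this).trans ?_
  rw [Finset.card_powerset]
  exact Nat.pow_le_pow_right (by norm_num) hS

open Classical in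
lemma sum_parts {k : ℕ} (pi : Fin n → Fin k) (g : ℕ) (Hd : Fin k → Prop) (R : Fin n → Prop)
    [DecidablePred R] :
    (univ.filter (fun τ : Fin k × Fin n => Hd τ.1 ∧ ∃ y ∈ grp (prt pi τ.1) g τ.2, R y)).card =
      ∑ j ∈ univ.filter Hd, (univ.filter (fun i : Fin n => ∃ y ∈ grp (prt pi j) g i, R y)).card := by
  rw [Finset.card_filter, Fintype.sum_prod_type, Finset.sum_filter]
  refine Finset.sum_congr rfl (fun j _ => ?_)
  by_cases hj : Hd j
  · rw [if_pos hj, Finset.card_filter]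
    refine Finset.sum_congr rfl (fun i _ => ?_)
    simp [hj]
  · rw [if_neg hj]
    apply Finset.sum_eq_zero
    intro i _
    simp [hj]

open Classical in
/-- handling whole parts with small groups -/
theorem handle_parts {r : Fin n → Fin n → Prop} {k : ℕ} (pi : Fin n → Fin k) (g : ℕ) (hg : 0 < g)
    (Hd : Fin n → Fin k → Prop) :
    Cover r (fun x y => y < x ∧ ¬ r y x ∧ (Hd x (pi y) ∨ Hd y (pi x)))
      (fun x => ((∑ j ∈ univ.filter (Hd x), ((prt pi j).card / g + 2) : ℕ) : ℝ) +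
        2 * ((2 ^ g : ℕ) : ℝ)) := by
  have h := handle (r := r) (Fin k × Fin n) (fun τ => grp (prt pi τ.1) g τ.2)
    (fun x τ => Hd x τ.1) (2 ^ g) (group_unique pi g)
    (fun τ => pat_small _ g (card_grp _ hg _) _ _)
    (fun τ => pat_small _ g (card_grp _ hg _) _ _)
  refine h.mono ?_ ?_
  · rintro x y ⟨h1, h2, h3⟩
    refine ⟨h1, h2, ?_⟩
    rcases h3 with h3 | h3
    · obtain ⟨i, hi⟩ := mem_group pi g y
      exact ⟨(pi y, i), Or.inl ⟨h3, hi⟩⟩
    · obtain ⟨i, hi⟩ := mem_group pi g x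
      exact ⟨(pi x, i), Or.inr ⟨h3, hi⟩⟩
  · intro x
    rw [sum_parts pi g (Hd x) (fun y => y < x), sum_parts pi g (Hd x) (fun y => x < y)]
    have : (∑ j ∈ univ.filter (Hd x),
        (univ.filter (fun i : Fin n => ∃ y ∈ grp (prt pi j) g i, y < x)).card) +
        (∑ j ∈ univ.filter (Hd x),
        (univ.filter (fun i : Fin n => ∃ y ∈ grp (prt pi j) g i, x < y)).card) ≤
        ∑ j ∈ univ.filter (Hd x), ((prt pi j).card / g + 2) := by
      rw [← Finset.sum_add_distrib]
      exact Finset.sum_le_sum (fun j _ => touch_card _ g x)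
    have h2 := (Nat.cast_le (α := ℝ)).2 this
    push_cast at h2 ⊢
    linarith

open Classical in
/-- handling one set with small groups, by everybody -/
theorem handle_set {r : Fin n → Fin n → Prop} (Z : Finset (Fin n)) (g : ℕ) (hg : 0 < g) :
    Cover r (fun x y => y < x ∧ ¬ r y x ∧ (x ∈ Z ∨ y ∈ Z))
      (fun x => ((Z.card / g + 2 : ℕ) : ℝ) + 2 * ((2 ^ g : ℕ) : ℝ)) := by
  have h := handle (r := r) (Fin n) (fun τ => grp Z g τ)
    (fun _ _ => True) (2 ^ g) (by
      intro x
      rw [Finset.card_le_one]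
      intro i h i' h'
      simp only [grp, Finset.mem_filter, Finset.mem_univ, true_and] at h h'
      exact Fin.ext (h.2.symm.trans h'.2))
    (fun τ => pat_small _ g (card_grp _ hg _) _ _)
    (fun τ => pat_small _ g (card_grp _ hg _) _ _)
  have hmem : ∀ y ∈ Z, ∃ i : Fin n, y ∈ grp Z g i := by
    intro y hy
    have h1 : rk Z y < n := by
      refine (rk_lt_card _ hy).trans_le ?_
      calc Z.card ≤ Fintype.card (Fin n) := Finset.card_le_univ _
        _ = n := Fintype.card_fin n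
    exact ⟨⟨rk Z y / g, (Nat.div_le_self _ _).trans_lt h1⟩, by simp [grp, hy]⟩
  refine h.mono ?_ ?_
  · rintro x y ⟨h1, h2, h3⟩
    refine ⟨h1, h2, ?_⟩
    rcases h3 with h3 | h3
    · obtain ⟨i, hi⟩ := hmem x h3
      exact ⟨i, Or.inr ⟨trivial, hi⟩⟩
    · obtain ⟨i, hi⟩ := hmem y h3
      exact ⟨i, Or.inl ⟨trivial, hi⟩⟩
  · intro x
    simp only [true_and]
    have h2 := (Nat.cast_le (α := ℝ)).2 (touch_card Z g x)
    push_cast at h2 ⊢
    linarith

end

end Q146.LD
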