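import Pool.Agent.Q146.LDim.Big

open Finset

namespace Q146.LD

section
variable {n : ℕ}

/-- forward pairs are cheap -/
theorem forward {r : Fin n → Fin n → Prop} (hr : ∀ x y, r x y → x ≤ y) (s : ℕ) (hs : 0 < s) :
    Cover r (fun x y => x < y) (fun _ => ((n / s + 1 + s : ℕ) : ℝ)) := by
  classical
  refine ⟨Fin (n / s + 1) ⊕ Fin n, inferInstance,
    Sum.elim (fun b => univ.filter (fun x : Fin n => (x : ℕ) / s < b))
      (fun y => univ.filter (fun x : Fin n => (x : ℕ) / s = (y : ℕ) / s ∧ x < y)),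
    Sum.elim (fun b => univ.filter (fun x : Fin n => (x : ℕ) / s = b)) (fun y => {y}), ?_, ?_, ?_⟩
  · rintro (b | y) a ha c hc hrc
    · simp only [Sum.elim_inl, Finset.mem_filter, Finset.mem_univ, true_and] at ha hc
      have h1 := Nat.div_le_div_right (c := s) (hr _ _ hrc)
      rw [hc] at h1
      omega
    · simp only [Sum.elim_inr, Finset.mem_filter, Finset.mem_univ, true_and,
        Finset.mem_singleton] at ha hc
      subst hc
      exact absurd (hr _ _ hrc) (not_le.2 ha.2)
  · intro x y hxy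
    by_cases h : (x : ℕ) / s = (y : ℕ) / s
    · refine ⟨Sum.inr y, ?_, ?_⟩
      · simp [h, hxy]
      · simp
    · have h1 : (y : ℕ) / s < n / s + 1 := Nat.lt_succ_of_le (Nat.div_le_div_right y.2.le)
      refine ⟨Sum.inl ⟨(y : ℕ) / s, h1⟩, ?_, ?_⟩
      · simp only [Sum.elim_inl, Finset.mem_filter, Finset.mem_univ, true_and]
        exact lt_of_le_of_ne (Nat.div_le_div_right (Fin.le_def.1 hxy.le)) h
      · simp
  · intro x
    have h0 : (univ.filter (fun k : Fin (n / s + 1) ⊕ Fin n =>
        x ∈ Sum.elim (fun b : Fin (n / s + 1) => univ.filter (fun x : Fin n => (x : ℕ) / s < (b : ℕ)))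
          (fun y : Fin n => univ.filter (fun x : Fin n => (x : ℕ) / s = (y : ℕ) / s ∧ x < y)) k ∨
        x ∈ Sum.elim (fun b : Fin (n / s + 1) => univ.filter (fun x : Fin n => (x : ℕ) / s = (b : ℕ)))
          (fun y : Fin n => ({y} : Finset (Fin n))) k)).card =
        (univ.filter (fun b : Fin (n / s + 1) => x ∈ univ.filter (fun x : Fin n => (x : ℕ) / s < (b:ℕ)) ∨
          x ∈ univ.filter (fun x : Fin n => (x : ℕ) / s = (b:ℕ)))).card +
        (univ.filter (fun y : Fin n => x ∈ univ.filter (fun x : Fin n => (x : ℕ) / s = (y : ℕ) / s ∧ x < y)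
          ∨ x ∈ ({y} : Finset (Fin n)))).card := by
      rw [Finset.card_filter, Finset.card_filter, Finset.card_filter, Fintype.sum_sum_type]
      rfl
    have h1 : (univ.filter (fun b : Fin (n / s + 1) =>
        x ∈ univ.filter (fun x : Fin n => (x : ℕ) / s < (b:ℕ)) ∨
          x ∈ univ.filter (fun x : Fin n => (x : ℕ) / s = (b:ℕ)))).card ≤ n / s + 1 := by
      refine (Finset.card_le_univ _).trans ?_
      simp
    have h2 : (univ.filter (fun y : Fin n =>
        x ∈ univ.filter (fun x : Fin n => (x : ℕ) / s = (y : ℕ) / s ∧ x < y)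
          ∨ x ∈ ({y} : Finset (Fin n)))).card ≤ s := by
      have : (univ.filter (fun y : Fin n =>
        x ∈ univ.filter (fun x : Fin n => (x : ℕ) / s = (y : ℕ) / s ∧ x < y)
          ∨ x ∈ ({y} : Finset (Fin n)))).card ≤
          (Finset.Ico ((x : ℕ) / s * s) ((x : ℕ) / s * s + s)).card := by
        apply Finset.card_le_card_of_injOn (fun y : Fin n => (y : ℕ))
        · intro y hy
          simp only [Finset.coe_filter, Finset.mem_filter, Finset.mem_univ, true_and,
            Finset.mem_singleton, Set.mem_ofPred_eq] at hy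
          have h3 : (x : ℕ) / s = (y : ℕ) / s := by
            rcases hy with hy | hy
            · exact hy.1
            · rw [hy]
          rw [Finset.coe_Ico, Set.mem_Ico, h3]
          beta_reduce
          have h6 := Nat.div_add_mod (y : ℕ) s
          have h7 := Nat.mod_lt (y : ℕ) hs
          rw [mul_comm] at h6
          omega
        · intro a _ b _ h
          exact Fin.ext h
      simpa using this
    have h3 : ((_ : ℕ) : ℝ) ≤ ((n / s + 1 + s : ℕ) : ℝ) := Nat.cast_le.2
      (h0.le.trans (add_le_add h1 h2))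
    exact h3

end

/-- orientations with small out-degrees -/
theorem orient {k : ℕ} (Γ : Fin k → Fin k → Prop) [DecidableRel Γ] (d : ℕ)
    (h : ∀ S : Finset (Fin k), ((S ×ˢ S).filter (fun p => p.1 < p.2 ∧ Γ p.1 p.2)).card ≤ d * S.card) :
    ∃ O : Fin k → Fin k → Prop, (∀ a b, a < b → Γ a b → O a b ∨ O b a) ∧
      ∀ a (F : Finset (Fin k)), (∀ b ∈ F, O a b) → F.card ≤ d := by
  classical
  set ι := {p : Fin k × Fin k // p.1 < p.2 ∧ Γ p.1 p.2}
  set t : ι → Finset (Fin k × Fin d) := fun p => ({p.1.1, p.1.2} : Finset (Fin k)) ×ˢ univ with ht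
  have hall : ∀ F : Finset ι, F.card ≤ (F.biUnion t).card := by
    intro F
    set S : Finset (Fin k) := F.biUnion (fun p => {p.1.1, p.1.2}) with hS
    have h1 : F.card ≤ ((S ×ˢ S).filter (fun p => p.1 < p.2 ∧ Γ p.1 p.2)).card := by
      apply Finset.card_le_card_of_injOn (fun p => p.1)
      · intro p hp
        have ha : p.1.1 ∈ S := by
          rw [hS, Finset.mem_biUnion]; exact ⟨p, hp, by simp⟩
        have hb : p.1.2 ∈ S := by
          rw [hS, Finset.mem_biUnion]; exact ⟨p, hp, by simp⟩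
        simp only [Finset.coe_filter, Finset.mem_product, Set.mem_ofPred_eq]
        exact ⟨⟨ha, hb⟩, p.2⟩
      · intro a _ b _ hab
        exact Subtype.ext hab
    have h2 : S ×ˢ (univ : Finset (Fin d)) ⊆ F.biUnion t := by
      rintro ⟨a, i⟩ ha
      rw [Finset.mem_product, hS, Finset.mem_biUnion] at ha
      obtain ⟨⟨p, hp, hpa⟩, -⟩ := ha
      rw [Finset.mem_biUnion]
      refine ⟨p, hp, ?_⟩
      rw [ht]
      simp only [Finset.mem_product, Finset.mem_univ, and_true]
      exact hpa
    have h3 := Finset.card_le_card h2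
    rw [Finset.card_product, Finset.card_univ, Fintype.card_fin] at h3
    calc F.card ≤ _ := h1
      _ ≤ d * S.card := h S
      _ = S.card * d := mul_comm _ _
      _ ≤ _ := h3
  obtain ⟨f, hf1, hf2⟩ := (Finset.all_card_le_biUnion_card_iff_exists_injective t).1 hall
  refine ⟨fun a b => ∃ p : ι, (p.1 = (a, b) ∨ p.1 = (b, a)) ∧ (f p).1 = a, ?_, ?_⟩
  · intro a b hab hΓ
    have h1 := hf2 ⟨(a, b), hab, hΓ⟩
    rw [ht] at h1
    simp only [Finset.mem_product, Finset.mem_univ, and_true, Finset.mem_insert,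
      Finset.mem_singleton] at h1
    rcases h1 with h1 | h1
    · exact Or.inl ⟨⟨(a, b), hab, hΓ⟩, Or.inl rfl, h1⟩
    · exact Or.inr ⟨⟨(a, b), hab, hΓ⟩, Or.inr rfl, h1⟩
  · intro a F hF
    rcases F.eq_empty_or_nonempty with rfl | ⟨b0, hb0⟩
    · simp
    obtain ⟨p0, _⟩ := hF b0 hb0
    haveI : Nonempty ι := ⟨p0⟩
    choose! p hp using hF
    have : F.card ≤ (univ : Finset (Fin d)).card := by
      apply Finset.card_le_card_of_injOn (fun b => (f (p b)).2) (fun _ _ => Finset.mem_coe.2 (Finset.mem_univ _))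
      intro b hb b' hb' hbb
      have h1 := hp b hb
      have h2 := hp b' hb'
      have h3 : p b = p b' := by
        apply hf1
        exact Prod.ext (h1.2.trans h2.2.symm) hbb
      have h4 := h1.1
      have h5 := h2.1
      rw [← h3] at h5
      have hlt := (p b).2.1
      rcases h4 with h4 | h4 <;> rcases h5 with h5 | h5 <;> rw [h4] at h5 hlt <;>
        simp only [Prod.mk.injEq] at h5
      · exact h5.2
      · rw [h5.2] at hlt; exact absurd hlt (lt_irrefl _)
      · rw [h5.1] at hlt; exact absurd hlt (lt_irrefl _)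
      · exact h5.1
    simpa using this

/-- three large sets contain large subsets in order -/
theorem three_sets {n : ℕ} (S : Fin 3 → Finset (Fin n)) (m : ℕ) (hm : 1 ≤ m)
    (hS : ∀ i, 3 * m ≤ (S i).card) :
    ∃ (i j l : Fin 3) (t1 t2 : ℕ), i ≠ j ∧ i ≠ l ∧ j ≠ l ∧ t1 ≤ t2 ∧
      m ≤ ((S i).filter (fun a : Fin n => (a : ℕ) < t1)).card ∧
      m ≤ ((S j).filter (fun a : Fin n => t1 ≤ (a : ℕ) ∧ (a : ℕ) < t2)).card ∧
      m ≤ ((S l).filter (fun a : Fin n => t2 ≤ (a : ℕ))).card := by
  classical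
  set f : Fin 3 → ℕ → ℕ := fun i t => ((S i).filter (fun a : Fin n => (a : ℕ) < t)).card with hf
  have hstep : ∀ i t, f i (t+1) ≤ f i t + 1 := by
    intro i t
    have hsub : (S i).filter (fun a : Fin n => (a : ℕ) < t + 1) ⊆
        (S i).filter (fun a : Fin n => (a : ℕ) < t) ∪ (S i).filter (fun a : Fin n => (a : ℕ) = t) := by
      intro a ha
      simp only [Finset.mem_union, Finset.mem_filter] at ha ⊢
      rcases Nat.lt_succ_iff_lt_or_eq.1 ha.2 with h | h
      · exact Or.inl ⟨ha.1, h⟩
      · exact Or.inr ⟨ha.1, h⟩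
    have h1 := (Finset.card_le_card hsub).trans (Finset.card_union_le _ _)
    have h2 : ((S i).filter (fun a : Fin n => (a : ℕ) = t)).card ≤ 1 := by
      rw [Finset.card_le_one]
      intro a ha b hb
      rw [Finset.mem_filter] at ha hb
      exact Fin.ext (ha.2.trans hb.2.symm)
    rw [hf]; simp only; omega
  have hmono : ∀ i s t, s ≤ t → f i s ≤ f i t := by
    intro i s t hst
    apply Finset.card_le_card
    intro a ha
    rw [Finset.mem_filter] at ha ⊢
    exact ⟨ha.1, ha.2.trans_le hst⟩
  have hn : ∀ i, f i n = (S i).card := by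
    intro i
    rw [hf]; simp only
    congr 1
    rw [Finset.filter_eq_self]
    intro a _; exact a.2
  have h0 : ∀ i, f i 0 = 0 := by intro i; simp [hf]
  -- first threshold
  have hex1 : ∃ t, ∃ i, m ≤ f i t := ⟨n, 0, by rw [hn]; have := hS 0; omega⟩
  set t1 := Nat.find hex1 with ht1
  obtain ⟨i, hi⟩ := Nat.find_spec hex1
  have hpos1 : 0 < t1 := by
    rcases Nat.eq_zero_or_pos t1 with h | h
    · rw [← ht1, h, h0] at hi; omega
    · exact h
  have hle1 : ∀ j, f j t1 ≤ m := by
    intro j
    have h1 := Nat.find_min hex1 (m := t1 - 1) (by omega)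
    push Not at h1
    have h2 := h1 j
    have h3 := hstep j (t1 - 1)
    have h4 : t1 - 1 + 1 = t1 := by omega
    rw [h4] at h3
    omega
  -- second threshold
  have hex2 : ∃ t, ∃ j, j ≠ i ∧ m ≤ f j t - f j t1 := by
    obtain ⟨j, hj⟩ : ∃ j : Fin 3, j ≠ i := exists_ne i
    refine ⟨n, j, hj, ?_⟩
    rw [hn]
    have := hS j
    have := hle1 j
    omega
  set t2 := Nat.find hex2 with ht2
  obtain ⟨j, hji, hj⟩ := Nat.find_spec hex2
  rw [← ht2] at hj
  have h12 : t1 < t2 := by
    by_contra hc
    have := hmono j t2 t1 (not_lt.1 hc)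
    omega
  have hle2 : ∀ l, l ≠ i → f l t2 ≤ 2 * m := by
    intro l hl
    have h1 := Nat.find_min hex2 (m := t2 - 1) (by omega)
    push Not at h1
    have h2 := h1 l hl
    have h3 := hstep l (t2 - 1)
    have h4 : t2 - 1 + 1 = t2 := by omega
    rw [h4] at h3
    have h5 := hle1 l
    omega
  obtain ⟨l, hli, hlj⟩ : ∃ l : Fin 3, l ≠ i ∧ l ≠ j := by
    by_contra hcon
    push Not at hcon
    have h1 : (univ : Finset (Fin 3)) ⊆ {i, j} := by
      intro l _
      rw [Finset.mem_insert, Finset.mem_singleton]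
      by_cases h : l = i
      · exact Or.inl h
      · exact Or.inr (hcon l h)
    have h2 := Finset.card_le_card h1
    have h3 : ({i, j} : Finset (Fin 3)).card ≤ 2 := Finset.card_le_two
    simp at h2
    omega
  refine ⟨i, j, l, t1, t2, hji.symm, hli.symm, hlj.symm, h12.le, hi, ?_, ?_⟩
  · have h1 : f j t2 - f j t1 ≤ ((S j).filter (fun a : Fin n => t1 ≤ (a : ℕ) ∧ (a : ℕ) < t2)).card := by
      have hsub : (S j).filter (fun a : Fin n => (a : ℕ) < t2) ⊆
        (S j).filter (fun a : Fin n => (a : ℕ) < t1) ∪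
          (S j).filter (fun a : Fin n => t1 ≤ (a : ℕ) ∧ (a : ℕ) < t2) := by
        intro a ha
        simp only [Finset.mem_union, Finset.mem_filter] at ha ⊢
        rcases Nat.lt_or_ge (a : ℕ) t1 with h | h
        · exact Or.inl ⟨ha.1, h⟩
        · exact Or.inr ⟨ha.1, h, ha.2⟩
      have h1 := (Finset.card_le_card hsub).trans (Finset.card_union_le _ _)
      rw [hf]; simp only; omega
    omega
  · have h1 := Finset.card_filter_add_card_filter_not (s := S l) (fun a : Fin n => (a : ℕ) < t2)
    have h2 : (S l).filter (fun a : Fin n => ¬ (a : ℕ) < t2) = (S l).filter (fun a : Fin n => t2 ≤ (a : ℕ)) := by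
      apply Finset.filter_congr
      intro a _
      exact not_lt
    rw [h2] at h1
    have h3 : f l t2 ≤ 2 * m := hle2 l hli
    have h4 := hS l
    rw [hf] at h3
    simp only at h3
    omega

end Q146.LD
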