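import Pool.Agent.Q146.LDim.Final

open Finset Filter Topology

namespace Q146.LD

theorem reg (ε : ℝ) (hε : 0 < ε) (l : ℕ) (hl : 1 ≤ l) (n : ℕ)
    (hn : 4 * SzemerediRegularity.bound ε l ≤ n) (hn' : l ≤ n) (r : Fin n → Fin n → Prop) :
    ∃ (k : ℕ) (pi : Fin n → Fin k) (s : ℕ), l ≤ k ∧ k ≤ SzemerediRegularity.bound ε l ∧ 3 ≤ s ∧
      (∀ i, s ≤ (prt pi i).card) ∧ (∀ i, (prt pi i).card ≤ s + 1) ∧
      (∀ F : Finset (Fin k × Fin k), (∀ p ∈ F, p.1 < p.2 ∧
      ¬ (cg r).IsUniform ε (prt pi p.1) (prt pi p.2)) → (F.card : ℝ) ≤ ε * k ^ 2) := by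
  classical
  obtain ⟨P, hP1, hP2, hP3, hP4⟩ := szemeredi_regularity (G := cg r) (ε := ε) (l := l) hε (by simpa using hn')
  set k := P.parts.card with hk
  set e := P.parts.equivFin with he
  set pi : Fin n → Fin k := fun x => e ⟨P.part x, P.part_mem.2 (Finset.mem_univ x)⟩ with hpi
  have hprt : ∀ j, prt pi j = (e.symm j).1 := by
    intro j
    ext x
    rw [prt, Finset.mem_filter]
    constructor
    · rintro ⟨-, h⟩
      rw [← h, hpi]
      simp only [Equiv.symm_apply_apply]
      exact P.mem_part (Finset.mem_univ x)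
    · intro h
      refine ⟨Finset.mem_univ _, ?_⟩
      rw [hpi]
      simp only
      rw [Equiv.apply_eq_iff_eq_symm_apply]
      apply Subtype.ext
      exact P.part_eq_of_mem (e.symm j).2 h
  have hk1 : 1 ≤ k := le_trans hl hP2
  refine ⟨k, pi, n / k, hP2, hP3, ?_, ?_, ?_, ?_⟩
  · rw [Nat.le_div_iff_mul_le (by omega)]
    omega
  · intro i
    rw [hprt]
    have := hP1.average_le_card_part (e.symm i).2
    rwa [Finset.card_univ, Fintype.card_fin] at this
  · intro i
    rw [hprt]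
    have := hP1.card_part_le_average_add_one (e.symm i).2
    rwa [Finset.card_univ, Fintype.card_fin] at this
  · intro F hF
    have h1 : F.card ≤ (P.nonUniforms (cg r) ε).card := by
      apply Finset.card_le_card_of_injOn (fun p => ((e.symm p.1).1, (e.symm p.2).1))
      · intro p hp
        have := hF p hp
        rw [Finset.mem_coe, Finpartition.mk_mem_nonUniforms]
        refine ⟨(e.symm p.1).2, (e.symm p.2).2, ?_, ?_⟩
        · intro hc
          have h2 := e.symm.injective (Subtype.ext hc)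
          exact absurd h2 this.1.ne
        · rw [← hprt, ← hprt]; exact this.2
      · intro p _ q _ hpq
        simp only [Prod.mk.injEq] at hpq
        exact Prod.ext (e.symm.injective (Subtype.ext hpq.1)) (e.symm.injective (Subtype.ext hpq.2))
    have h2 : ((P.nonUniforms (cg r) ε).card : ℝ) ≤ ((k * (k - 1) : ℕ) : ℝ) * ε := hP4
    have h3 : ((k * (k - 1) : ℕ) : ℝ) ≤ (k:ℝ) ^ 2 := by
      have : k * (k - 1) ≤ k ^ 2 := by
        rw [sq]; exact Nat.mul_le_mul_left _ (Nat.sub_le _ _)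
      exact_mod_cast this
    have h4 : (F.card : ℝ) ≤ ((P.nonUniforms (cg r) ε).card : ℝ) := by exact_mod_cast h1
    nlinarith

/-- a good value of theta -/
lemma theta_bound (C : ℕ) (hC : 0 < C) (L : ℝ) (hL : 0 ≤ L) (h : ℕ) (hh : (h:ℝ) ≤ C * L) :
    (1 / (64 * (C:ℝ) ^ 2)) ^ (-((1 / (64 * (C:ℝ) ^ 2)) * h)) * (1 + 1 / (64 * (C:ℝ) ^ 2)) ^ h ≤
      Real.exp (L / 4) := by
  have hC1 : (1:ℝ) ≤ C := by exact_mod_cast hC
  set θ : ℝ := 1 / (64 * (C:ℝ) ^ 2) with hθ
  have hθ0 : 0 < θ := by positivity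
  have h1 : (1 + θ) ^ h ≤ Real.exp (θ * h) := by
    rw [mul_comm, Real.exp_nat_mul]
    apply pow_le_pow_left₀ (by positivity)
    have := Real.add_one_le_exp θ
    linarith
  have h2 : θ ^ (-(θ * h)) = Real.exp (θ * h * Real.log (1 / θ)) := by
    rw [Real.rpow_def_of_pos hθ0, one_div, Real.log_inv]
    congr 1; ring
  have h3 : Real.log (1 / θ) ≤ 2 * (8 * C - 1) := by
    have e : 1 / θ = (8 * (C:ℝ)) ^ 2 := by rw [hθ]; field_simp; ring
    rw [e, Real.log_pow]
    have := Real.log_le_sub_one_of_pos (show (0:ℝ) < 8 * C by positivity)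
    push_cast
    linarith
  rw [h2]
  calc Real.exp (θ * h * Real.log (1 / θ)) * (1 + θ) ^ h
      ≤ Real.exp (θ * h * (2 * (8 * C - 1))) * Real.exp (θ * h) := by
        apply mul_le_mul _ h1 (by positivity) (Real.exp_pos _).le
        apply Real.exp_le_exp.2
        exact mul_le_mul_of_nonneg_left h3 (by positivity)
    _ = Real.exp (θ * h * (2 * (8 * C - 1)) + θ * h) := by rw [Real.exp_add]
    _ ≤ Real.exp (L / 4) := by
        apply Real.exp_le_exp.2
        have e1 : θ * h * (2 * (8 * C - 1)) + θ * h ≤ θ * h * (16 * C) := by nlinarith [mul_pos hθ0 hθ0, mul_nonneg hθ0.le (Nat.cast_nonneg (α := ℝ) h)]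
        have e2 : θ * h * (16 * C) ≤ θ * (C * L) * (16 * C) := by
          apply mul_le_mul_of_nonneg_right _ (by positivity)
          exact mul_le_mul_of_nonneg_left hh hθ0.le
        have e3 : θ * (C * L) * (16 * C) = L / 4 := by rw [hθ]; field_simp; ring
        linarith

end Q146.LD
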