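import Pool.Agent.Q146.LDim.Misc

open Finset

namespace Q146.LD

open Classical in
/-- the comparability graph -/
noncomputable def cg {n : ℕ} (r : Fin n → Fin n → Prop) : SimpleGraph (Fin n) := SimpleGraph.fromRel r

open Classical in
noncomputable instance {n : ℕ} (r : Fin n → Fin n → Prop) : DecidableRel (cg r).Adj :=
  fun _ _ => Classical.propDecidable _

lemma cg_adj {n : ℕ} (r : Fin n → Fin n → Prop) (x y : Fin n) :
    (cg r).Adj x y ↔ x ≠ y ∧ (r x y ∨ r y x) := by
  rw [cg, SimpleGraph.fromRel_adj]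

section
variable {n : ℕ}

lemma inter_sum (G : SimpleGraph (Fin n)) [DecidableRel G.Adj] (s t : Finset (Fin n)) :
    (G.interedges s t).card = ∑ b ∈ t, (s.filter (fun a => G.Adj a b)).card := by
  rw [SimpleGraph.interedges_def, Finset.card_filter, Finset.sum_product_right]
  refine Finset.sum_congr rfl (fun b _ => ?_)
  rw [Finset.card_filter]

lemma dens_eq (G : SimpleGraph (Fin n)) [DecidableRel G.Adj] (s t : Finset (Fin n)) :
    ((G.edgeDensity s t : ℚ) : ℝ) = ((G.interedges s t).card : ℝ) / ((s.card : ℝ) * t.card) := by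
  rw [SimpleGraph.edgeDensity_def]
  push_cast
  rfl

/-- most vertices of a large subset have many neighbours in a large subset -/
lemma few_bad (G : SimpleGraph (Fin n)) [DecidableRel G.Adj] (A B A' B' : Finset (Fin n)) (ε δ : ℝ)
    (hε : 0 < ε) (hu : G.IsUniform ε A B) (hd : δ < ((G.edgeDensity A B : ℚ) : ℝ))
    (hA' : A' ⊆ A) (hB' : B' ⊆ B) (hcA : (A.card : ℝ) * ε ≤ A'.card) (hA0 : 0 < A'.card)
    (hB0 : 0 < B.card) :
    ((B'.filter (fun b => ((A'.filter (fun a => G.Adj a b)).card : ℝ) < (δ - ε) * A'.card)).card : ℝ)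
      < B.card * ε := by
  by_contra hcon
  rw [not_lt] at hcon
  set X := B'.filter (fun b => ((A'.filter (fun a => G.Adj a b)).card : ℝ) < (δ - ε) * A'.card) with hX
  have hXB : X ⊆ B := (Finset.filter_subset _ _).trans hB'
  have h1 := hu hA' hXB hcA hcon
  have h2 : (δ - ε) < ((G.edgeDensity A' X : ℚ) : ℝ) := by
    have := (abs_lt.1 h1).1
    linarith
  have hX0 : (0:ℝ) < X.card := lt_of_lt_of_le (by positivity) hcon
  have hA0' : (0:ℝ) < A'.card := by exact_mod_cast hA0
  rw [dens_eq, lt_div_iff₀ (by positivity), inter_sum] at h2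
  have h3 : ((∑ b ∈ X, (A'.filter (fun a => G.Adj a b)).card : ℕ) : ℝ) ≤
      ∑ b ∈ X, (δ - ε) * A'.card := by
    push_cast
    apply Finset.sum_le_sum
    intro b hb
    rw [hX, Finset.mem_filter] at hb
    exact hb.2.le
  rw [Finset.sum_const, nsmul_eq_mul] at h3
  nlinarith

/-- no three parts are pairwise uniform of middle density -/
theorem no_triangle (r : Fin n → Fin n → Prop) (hr : ∀ x y, r x y → x ≤ y)
    (htr : ∀ x y z, r x y → r y z → r x z) (S : Fin 3 → Finset (Fin n)) (ε δ : ℝ) (hε : 0 < ε)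
    (hε1 : 21 * ε ≤ 1) (hδ : 11 * ε ≤ δ) (s : ℕ) (hs : 3 ≤ s) (hS1 : ∀ i, s ≤ (S i).card)
    (hS2 : ∀ i, (S i).card ≤ s + 1)
    (hu : ∀ i j, i ≠ j → (cg r).IsUniform ε (S i) (S j))
    (hd1 : ∀ i j, i ≠ j → δ < (((cg r).edgeDensity (S i) (S j) : ℚ) : ℝ))
    (hd2 : ∀ i j, i ≠ j → (((cg r).edgeDensity (S i) (S j) : ℚ) : ℝ) < 1 - δ) : False := by
  obtain ⟨i, j, l, t1, t2, hij, hil, hjl, ht, h1, h2, h3⟩ := three_sets S (s / 3) (by omega)
    (fun i => by have := hS1 i; omega)
  set A' := (S i).filter (fun a : Fin n => (a : ℕ) < t1) with hA'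
  set B' := (S j).filter (fun a : Fin n => t1 ≤ (a : ℕ) ∧ (a : ℕ) < t2) with hB'
  set C' := (S l).filter (fun a : Fin n => t2 ≤ (a : ℕ)) with hC'
  have hsz : ∀ (a : ℕ) (i : Fin 3), s / 3 ≤ a → ((S i).card : ℝ) ≤ 10 * a := by
    intro a i ha
    have h4 := hS2 i
    have h5 : (S i).card ≤ 10 * a := by omega
    exact_mod_cast h5
  have hszA := hsz _ i h1
  have hszB := hsz _ j h2
  have hszC := hsz _ l h3
  have hA0 : 0 < A'.card := by omega
  have hB0 : 0 < B'.card := by omega
  have hC0 : 0 < C'.card := by omega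
  have hA0' : (0:ℝ) < A'.card := by exact_mod_cast hA0
  have hB0' : (0:ℝ) < B'.card := by exact_mod_cast hB0
  have hC0' : (0:ℝ) < C'.card := by exact_mod_cast hC0
  have hAs : A' ⊆ S i := Finset.filter_subset _ _
  have hBs : B' ⊆ S j := Finset.filter_subset _ _
  have hCs : C' ⊆ S l := Finset.filter_subset _ _
  have hSj : 0 < (S j).card := by have := hS1 j; omega
  have hf1 := few_bad (cg r) (S i) (S j) A' B' ε δ hε (hu i j hij) (hd1 i j hij) hAs hBs
    (by nlinarith) hA0 hSj
  have hf2 := few_bad (cg r) (S l) (S j) C' B' ε δ hε (hu l j hjl.symm) (hd1 l j hjl.symm) hCs hBs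
    (by nlinarith) hC0 hSj
  obtain ⟨b, hb, hb1, hb2⟩ : ∃ b ∈ B', (δ - ε) * A'.card ≤
      ((A'.filter (fun a => (cg r).Adj a b)).card : ℝ) ∧ (δ - ε) * C'.card ≤
      ((C'.filter (fun a => (cg r).Adj a b)).card : ℝ) := by
    by_contra hcon
    push Not at hcon
    have hsub : B' ⊆ (B'.filter (fun b => ((A'.filter (fun a => (cg r).Adj a b)).card : ℝ) <
        (δ - ε) * A'.card)) ∪ (B'.filter (fun b => ((C'.filter (fun a => (cg r).Adj a b)).card : ℝ) <
        (δ - ε) * C'.card)) := by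
      intro b hb
      rw [Finset.mem_union]
      by_cases h : ((A'.filter (fun a => (cg r).Adj a b)).card : ℝ) < (δ - ε) * A'.card
      · exact Or.inl (Finset.mem_filter.2 ⟨hb, h⟩)
      · exact Or.inr (Finset.mem_filter.2 ⟨hb, hcon b hb (not_lt.1 h)⟩)
    have h4 := (Finset.card_le_card hsub).trans (Finset.card_union_le _ _)
    have h5 : (B'.card : ℝ) ≤ ((B'.filter (fun b => ((A'.filter (fun a => (cg r).Adj a b)).card : ℝ) <
        (δ - ε) * A'.card)).card : ℝ) + ((B'.filter (fun b => ((C'.filter (fun a => (cg r).Adj a b)).card : ℝ) <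
        (δ - ε) * C'.card)).card : ℝ) := by exact_mod_cast h4
    nlinarith
  set A'' := A'.filter (fun a => (cg r).Adj a b) with hA''
  set C'' := C'.filter (fun a => (cg r).Adj a b) with hC''
  have hA''c : ((S i).card : ℝ) * ε ≤ A''.card := by nlinarith
  have hC''c : ((S l).card : ℝ) * ε ≤ C''.card := by nlinarith
  have h6 := hu i l hil ((Finset.filter_subset _ _).trans hAs) ((Finset.filter_subset _ _).trans hCs)
    hA''c hC''c
  have hA0'' : (0:ℝ) < A''.card := lt_of_lt_of_le (by nlinarith) hb1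
  have hC0'' : (0:ℝ) < C''.card := lt_of_lt_of_le (by nlinarith) hb2
  have h7 : (((cg r).edgeDensity A'' C'' : ℚ) : ℝ) < 1 := by
    have := (abs_lt.1 h6).2
    have := hd2 i l hil
    linarith
  -- but the density is one
  have h8 : ∀ a ∈ A'', ∀ c ∈ C'', (cg r).Adj a c := by
    intro a ha c hc
    rw [hA'', hA', Finset.mem_filter, Finset.mem_filter, cg_adj] at ha
    rw [hC'', hC', Finset.mem_filter, Finset.mem_filter, cg_adj] at hc
    rw [hB', Finset.mem_filter] at hb
    have hab : a < b := Fin.lt_def.2 (by omega)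
    have hbc : b < c := Fin.lt_def.2 (by omega)
    have e1 : r a b := by
      rcases ha.2.2 with h | h
      · exact h
      · exact absurd (hr _ _ h) (not_le.2 hab)
    have e2 : r b c := by
      rcases hc.2.2 with h | h
      · exact absurd (hr _ _ h) (not_le.2 hbc)
      · exact h
    rw [cg_adj]
    exact ⟨(hab.trans hbc).ne, Or.inl (htr _ _ _ e1 e2)⟩
  have h9 : (cg r).interedges A'' C'' = A'' ×ˢ C'' := by
    rw [SimpleGraph.interedges_def, Finset.filter_eq_self]
    rintro ⟨a, c⟩ hac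
    rw [Finset.mem_product] at hac
    exact h8 a hac.1 c hac.2
  rw [dens_eq, h9, Finset.card_product] at h7
  push_cast at h7
  rw [div_self (by positivity)] at h7
  exact lt_irrefl _ h7

end

/-- Mantel's bound on a set of vertices, for ordered pairs -/
lemma mantel {k : ℕ} (U : SimpleGraph (Fin k)) [DecidableRel U.Adj] (hU : U.CliqueFree 3)
    (S : Finset (Fin k)) :
    4 * ((S ×ˢ S).filter (fun p => p.1 < p.2 ∧ U.Adj p.1 p.2)).card ≤ S.card ^ 2 := by
  classical
  set H : SimpleGraph {x // x ∈ S} := U.comap (fun x => x.1) with hH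
  have hHf : H.CliqueFree (2+1) := by
    intro t ht
    apply hU (t.map ⟨fun x => x.1, Subtype.val_injective⟩)
    rw [SimpleGraph.isNClique_iff] at ht ⊢
    refine ⟨?_, by rw [Finset.card_map]; exact ht.2⟩
    intro a ha b hb hab
    rw [Finset.coe_map, Set.mem_image] at ha hb
    obtain ⟨x, hx, rfl⟩ := ha
    obtain ⟨y, hy, rfl⟩ := hb
    exact ht.1 hx hy (fun h => hab (by rw [h]))
  have h1 := hHf.card_edgeFinset_le
  simp only at h1
  have hcard : Fintype.card {x // x ∈ S} = S.card := Fintype.card_coe S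
  rw [hcard] at h1
  have h2 : ((S ×ˢ S).filter (fun p => p.1 < p.2 ∧ U.Adj p.1 p.2)).card ≤ H.edgeFinset.card := by
    have : ((S ×ˢ S).filter (fun p => p.1 < p.2 ∧ U.Adj p.1 p.2)) ⊆
        (H.edgeFinset.image (fun e => e.map (fun x => x.1))).biUnion
          (fun e => univ.filter (fun p : Fin k × Fin k => p.1 < p.2 ∧ s(p.1, p.2) = e)) := by
      rintro ⟨a, b⟩ hp
      rw [Finset.mem_filter, Finset.mem_product] at hp
      rw [Finset.mem_biUnion]
      refine ⟨s(a, b), ?_, ?_⟩
      · rw [Finset.mem_image]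
        refine ⟨s(⟨a, hp.1.1⟩, ⟨b, hp.1.2⟩), ?_, ?_⟩
        · rw [SimpleGraph.mem_edgeFinset, SimpleGraph.mem_edgeSet, hH]
          exact hp.2.2
        · rfl
      · rw [Finset.mem_filter]
        exact ⟨Finset.mem_univ _, hp.2.1, rfl⟩
    refine (Finset.card_le_card this).trans ?_
    refine Finset.card_biUnion_le.trans ?_
    have h3 : ∀ e : Sym2 (Fin k), (univ.filter (fun p : Fin k × Fin k => p.1 < p.2 ∧ s(p.1, p.2) = e)).card ≤ 1 := by
      intro e
      rw [Finset.card_le_one]
      rintro ⟨a, b⟩ h ⟨c, d⟩ h'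
      simp only [Finset.mem_filter, Finset.mem_univ, true_and] at h h'
      have h4 : s(a, b) = s(c, d) := h.2.trans h'.2.symm
      rw [Sym2.eq_iff] at h4
      rcases h4 with ⟨rfl, rfl⟩ | ⟨rfl, rfl⟩
      · rfl
      · exact absurd (h.1.trans h'.1) (lt_irrefl _)
    refine (Finset.sum_le_sum (fun e _ => h3 e)).trans ?_
    rw [Finset.sum_const, smul_eq_mul, mul_one]
    exact Finset.card_image_le
  have h3 : (S.card ^ 2 - (S.card % 2) ^ 2) * (2 - 1) / (2 * 2) + (S.card % 2).choose 2 ≤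
      S.card ^ 2 / 4 := by
    have h4 : (S.card % 2).choose 2 = 0 := by
      apply Nat.choose_eq_zero_of_lt
      omega
    rw [h4]
    simp only [Nat.add_zero]
    norm_num
    exact Nat.div_le_div_right (Nat.sub_le _ _)
  omega

/-- few small subsets -/
lemma small_subsets {n : ℕ} (h : ℕ) (θ z : ℝ) (hz : 0 < z) (hz1 : z ≤ 1) (S : Finset (Fin n))
    (hS : S.card ≤ h) :
    ((S.powerset.filter (fun P => (P.card : ℝ) ≤ θ * h)).card : ℝ) ≤ z ^ (-(θ * h)) * (1 + z) ^ h := by
  have h1 : ((S.powerset.filter (fun P => (P.card : ℝ) ≤ θ * h)).card : ℝ) ≤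
      ∑ P ∈ S.powerset, z ^ (-(θ * h)) * z ^ P.card := by
    rw [← Finset.sum_boole]
    apply Finset.sum_le_sum
    intro P _
    split_ifs with hP
    · rw [← Real.rpow_natCast z P.card, ← Real.rpow_add hz]
      apply Real.one_le_rpow_of_pos_of_le_one_of_nonpos hz hz1
      linarith
    · positivity
  refine h1.trans ?_
  rw [← Finset.mul_sum]
  apply mul_le_mul_of_nonneg_left _ (by positivity)
  have h2 : ∑ P ∈ S.powerset, z ^ P.card = (1 + z) ^ S.card := by
    have := Finset.sum_pow_mul_eq_add_pow z 1 S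
    simp only [one_pow, mul_one] at this
    rw [this, add_comm]
  rw [h2]
  exact pow_le_pow_right₀ (by linarith) hS

end Q146.LD
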