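import Pool.Agent.Q146.LDim.Reg

open Finset Filter Topology

namespace Q146.LD

lemma ev_log (κ A B : ℝ) (hκ : 0 < κ) (hB : 0 < B) :
    ∀ᶠ n : ℕ in atTop, A * (n:ℝ) ^ (1 - κ) ≤ B * ((n:ℝ) / Real.logb 2 n) := by
  have h1 : Tendsto (fun x : ℝ => Real.log x / x ^ κ) atTop (𝓝 0) :=
    (isLittleO_log_rpow_atTop hκ).tendsto_div_nhds_zero
  have h2 := h1.comp tendsto_natCast_atTop_atTop
  have h3 : Tendsto (fun n : ℕ => A / Real.log 2 * (Real.log n / (n:ℝ) ^ κ)) atTop (𝓝 0) := by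
    have := h2.const_mul (A / Real.log 2)
    simpa using this
  have h4 : ∀ᶠ n : ℕ in atTop, A / Real.log 2 * (Real.log n / (n:ℝ) ^ κ) < B :=
    h3.eventually (Iio_mem_nhds hB)
  filter_upwards [h4, eventually_ge_atTop 2] with n hn hn2
  have hn0 : (1:ℝ) < n := by exact_mod_cast hn2
  have hnp : (0:ℝ) < n := by linarith
  have hlog : 0 < Real.log n := Real.log_pos hn0
  have hlog2 : 0 < Real.log 2 := Real.log_pos (by norm_num)
  have hpow : 0 < (n:ℝ) ^ κ := Real.rpow_pos_of_pos hnp _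
  rw [Real.logb, Real.rpow_sub hnp, Real.rpow_one]
  have e1 : A * ((n:ℝ) / (n:ℝ) ^ κ) =
      (A / Real.log 2 * (Real.log n / (n:ℝ) ^ κ)) * ((n:ℝ) / (Real.log n / Real.log 2)) := by
    field_simp
  rw [e1]
  apply mul_le_mul_of_nonneg_right hn.le
  positivity

open Classical in
theorem upper (ε0 : ℝ) (h0 : 0 < ε0) (h1 : ε0 ≤ 1) :
    ∀ᶠ n : ℕ in atTop, ∀ r : Fin n → Fin n → Prop, (∀ x y, r x y → x ≤ y) →
      (∀ x y z, r x y → r y z → r x z) →
      Cover r (fun x y => x ≠ y ∧ ¬ r y x) (fun _ => (1/4 + ε0) * ((n:ℝ) / Real.logb 2 n)) := by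
  set κ : ℝ := ε0 / 20 with hκ
  set η : ℝ := ε0 / 20 with hη
  set C : ℕ := ⌈20 / ε0⌉₊ with hC
  have hC1 : 20 / ε0 ≤ C := Nat.le_ceil _
  have hC0 : 0 < C := by
    have : (0:ℝ) < C := lt_of_lt_of_le (by positivity) hC1
    exact_mod_cast this
  have hCR : (0:ℝ) < C := by exact_mod_cast hC0
  set θ : ℝ := 1 / (64 * (C:ℝ) ^ 2) with hθ
  have hθ0 : 0 < θ := by positivity
  have hθ1 : θ ≤ 1 := by
    rw [hθ, div_le_one (by positivity)]
    have : (1:ℝ) ≤ C := by exact_mod_cast hC0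
    nlinarith
  set δ' : ℝ := θ * ε0 / 40 with hδ'
  have hδ'0 : 0 < δ' := by positivity
  have hη0 : 0 < η := by positivity
  set δ : ℝ := δ' * η * (ε0 / 20) with hδ
  have hδ0 : 0 < δ := by positivity
  set ε : ℝ := min (δ / 11) (min (1 / 21) (ε0 / 40)) with hε
  have hε0 : 0 < ε := lt_min (by positivity) (lt_min (by norm_num) (by positivity))
  have hε1 : 11 * ε ≤ δ := by
    have : ε ≤ δ / 11 := min_le_left _ _
    linarith
  have hε2 : 21 * ε ≤ 1 := by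
    have : ε ≤ 1 / 21 := (min_le_right _ _).trans (min_le_left _ _)
    linarith
  have hε3 : ε ≤ ε0 / 40 := (min_le_right _ _).trans (min_le_right _ _)
  set l : ℕ := ⌈40 / ε0⌉₊ with hl
  have hl1 : 40 / ε0 ≤ l := Nat.le_ceil _
  have hl0 : 1 ≤ l := by
    have : (0:ℝ) < l := lt_of_lt_of_le (by positivity) hl1
    exact_mod_cast this
  set M := SzemerediRegularity.bound ε l with hM
  set K : ℝ := 9 + (6 + 2 * C) * M with hK
  have hL : Tendsto (fun n : ℕ => κ * Real.logb 2 n) atTop atTop := by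
    have h2 : Tendsto (fun n : ℕ => Real.logb 2 (n:ℝ)) atTop atTop :=
      (Real.tendsto_logb_atTop (by norm_num)).comp tendsto_natCast_atTop_atTop
    exact h2.const_mul_atTop (by positivity)
  filter_upwards [hL.eventually_ge_atTop 1, ev_log κ (13 + K) (ε0 / 2) (by positivity) (by positivity),
    eventually_ge_atTop (4 * M + l + 2)] with n hn1 hn2 hn3 r hr htr
  set L := Real.logb 2 n with hLd
  have hn0 : (0:ℝ) < n := by
    have : 0 < n := by omega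
    exact_mod_cast this
  have hnge1 : (1:ℝ) ≤ n := by
    have : 1 ≤ n := by omega
    exact_mod_cast this
  have hL0 : 0 < L := by
    by_contra hc
    rw [not_lt] at hc
    have : κ * L ≤ 0 := mul_nonpos_of_nonneg_of_nonpos (by positivity) hc
    linarith
  obtain ⟨k, pi, s, hk1, hk2, hs3, hs1, hs2, hnu⟩ := reg ε hε0 l hl0 n (by omega) (by omega) r
  set g : ℕ := ⌊(1 - κ) * L⌋₊ with hg
  have hκ1 : κ ≤ 1 / 20 := by rw [hκ]; linarith
  have hg1 : (g:ℝ) ≤ (1 - κ) * L := Nat.floor_le (by nlinarith)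
  have hg2 : (1 - 2 * κ) * L ≤ g := by
    have := Nat.lt_floor_add_one ((1 - κ) * L)
    rw [← hg] at this
    nlinarith
  have hgpos : (0:ℝ) < g := lt_of_lt_of_le (by nlinarith) hg2
  have hgpos' : 0 < g := by exact_mod_cast hgpos
  have hhC : (((g * C : ℕ)) : ℝ) ≤ C * L := by
    push_cast
    nlinarith
  set Nr : ℝ := θ ^ (-(θ * ((g * C : ℕ) : ℝ))) * (1 + θ) ^ (g * C) with hNr
  have hNr1 : Nr ≤ Real.exp (L / 4) := theta_bound C hC0 L hL0.le (g * C) hhC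
  have hNr0 : 0 ≤ Nr := by positivity
  have hk0 : 0 < k := by omega
  set q : ℕ := ⌈Real.sqrt n⌉₊ with hq
  have hsq : 0 < Real.sqrt n := Real.sqrt_pos.2 hn0
  have hq1 : Real.sqrt n ≤ q := Nat.le_ceil _
  have hq2 : (q:ℝ) ≤ Real.sqrt n + 1 := (Nat.ceil_lt_add_one hsq.le).le
  have hq0 : 0 < q := by
    have : (0:ℝ) < q := lt_of_lt_of_le hsq hq1
    exact_mod_cast this
  have hcov := upper_fixed r hr htr pi ε δ δ' η θ g C ⌊Nr⌋₊ q hε0 hε2 hε1 hδ'0 (by positivity) hθ0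
    hgpos' hC0 hq0 hk0 s hs3 hs1 hs2 hnu (by
      intro S hS
      apply Nat.le_floor
      exact small_subsets (g * C) θ θ hθ0 hθ1 S hS)
  refine hcov.mono (fun _ _ h => h) (fun _ => ?_)
  -- arithmetic
  have hNn : (⌊Nr⌋₊ : ℝ) ≤ (n:ℝ) ^ (1 - κ) := by
    refine (Nat.floor_le hNr0).trans (hNr1.trans ?_)
    have e1 : (n:ℝ) ^ (1 - κ) = Real.exp ((1 - κ) * Real.log n) := by
      rw [Real.rpow_def_of_pos hn0, mul_comm]
    rw [e1]
    apply Real.exp_le_exp.2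
    have hlog2 : (1:ℝ)/2 < Real.log 2 := by
      have := Real.log_two_gt_d9
      linarith
    have hlogn : 0 ≤ Real.log n := Real.log_nonneg hnge1
    have e2 : L = Real.log n / Real.log 2 := rfl
    have e3 : L ≤ 2 * Real.log n := by
      rw [e2, div_le_iff₀ (by linarith)]
      nlinarith
    nlinarith
  have h2g : (2:ℝ) ^ g ≤ (n:ℝ) ^ (1 - κ) := by
    have e1 : (2:ℝ) ^ L = n := Real.rpow_logb (by norm_num) (by norm_num) hn0
    calc (2:ℝ) ^ g = (2:ℝ) ^ (g:ℝ) := (Real.rpow_natCast 2 g).symm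
      _ ≤ (2:ℝ) ^ (L * (1 - κ)) := by
          apply Real.rpow_le_rpow_of_exponent_le (by norm_num)
          linarith
      _ = ((2:ℝ) ^ L) ^ (1 - κ) := by rw [Real.rpow_mul (by norm_num)]
      _ = (n:ℝ) ^ (1 - κ) := by rw [e1]
  have hsqn : Real.sqrt n ≤ (n:ℝ) ^ (1 - κ) := by
    rw [Real.sqrt_eq_rpow]
    apply Real.rpow_le_rpow_of_exponent_le hnge1
    linarith
  have hpow1 : 1 ≤ (n:ℝ) ^ (1 - κ) := Real.one_le_rpow hnge1 (by linarith)
  have hnq : (n:ℝ) / q ≤ Real.sqrt n := by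
    rw [div_le_iff₀ (lt_of_lt_of_le hsq hq1)]
    calc (n:ℝ) = Real.sqrt n * Real.sqrt n := (Real.mul_self_sqrt hn0.le).symm
      _ ≤ Real.sqrt n * q := mul_le_mul_of_nonneg_left hq1 hsq.le
  have hkM : (k:ℝ) ≤ M := by exact_mod_cast hk2
  have hkR : (0:ℝ) < k := by exact_mod_cast hk0
  have hconst : 9 + (3 * (1/4 + 2 * ε + η) + 3 + 2 * C) * k ≤ K := by
    rw [hK]
    have e1 : 3 * (1/4 + 2 * ε + η) + 3 + 2 * (C:ℝ) ≤ 6 + 2 * C := by
      have : η ≤ 1 / 20 := hκ1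
      linarith
    have e2 : (3 * (1/4 + 2 * ε + η) + 3 + 2 * (C:ℝ)) * k ≤ (6 + 2 * C) * M := by
      apply mul_le_mul e1 hkM hkR.le (by positivity)
    linarith
  have hK0 : 0 ≤ K := by rw [hK]; positivity
  have hng : (n:ℝ) / g ≤ (1 + ε0 / 5) * (n / L) := by
    have e1 : (n:ℝ) / g ≤ n / ((1 - 2 * κ) * L) :=
      div_le_div_of_nonneg_left hn0.le (by nlinarith) hg2
    have e2 : (n:ℝ) / ((1 - 2 * κ) * L) = (1 / (1 - 2 * κ)) * (n / L) := by
      have : (1 - 2 * κ) ≠ 0 := by nlinarith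
      field_simp
    have e3 : 1 / (1 - 2 * κ) ≤ 1 + ε0 / 5 := by
      rw [div_le_iff₀ (by linarith)]
      have : ε0 / 5 = 4 * κ := by rw [hκ]; ring
      rw [this]
      nlinarith
    rw [e2] at e1
    exact e1.trans (mul_le_mul_of_nonneg_right e3 (by positivity))
  have hcoef : δ / (δ' * η) + 2 * ε + η + 2 / k + 1 / C + 2 * δ' / θ ≤ 3 * ε0 / 10 := by
    have a1 : δ / (δ' * η) = ε0 / 20 := by
      rw [div_eq_iff (mul_pos hδ'0 hη0).ne', hδ]; ring
    have a2 : 2 * ε ≤ ε0 / 20 := by linarith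
    have a3 : 2 / (k:ℝ) ≤ ε0 / 20 := by
      rw [div_le_iff₀ hkR]
      have : 40 / ε0 ≤ k := hl1.trans (by exact_mod_cast hk1)
      rw [div_le_iff₀ h0] at this
      linarith
    have a4 : 1 / (C:ℝ) ≤ ε0 / 20 := by
      rw [div_le_iff₀ hCR]
      rw [div_le_iff₀ h0] at hC1
      linarith
    have a5 : 2 * δ' / θ = ε0 / 20 := by
      rw [div_eq_iff hθ0.ne', hδ']; ring
    rw [a1, a5]
    have a6 : η = ε0 / 20 := hη
    linarith
  have hnL : 0 ≤ (n:ℝ) / L := by positivity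
  have hmain : (n:ℝ) / g * (1/4 + (δ / (δ' * η) + 2 * ε + η + 2 / k + 1 / C + 2 * δ' / θ)) ≤
      (1/4 + ε0 / 2) * (n / L) := by
    calc (n:ℝ) / g * (1/4 + (δ / (δ' * η) + 2 * ε + η + 2 / k + 1 / C + 2 * δ' / θ))
        ≤ ((1 + ε0 / 5) * (n / L)) * (1/4 + 3 * ε0 / 10) := by
          apply mul_le_mul hng (by linarith) _ (by positivity)
          positivity
      _ ≤ (1/4 + ε0 / 2) * (n / L) := by
          have : (1 + ε0 / 5) * (1/4 + 3 * ε0 / 10) ≤ 1/4 + ε0 / 2 := by nlinarith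
          nlinarith
  have hrest : ((n:ℝ) / q + q) + 6 * 2 ^ g + 4 * (⌊Nr⌋₊ : ℝ) +
      (9 + (3 * (1/4 + 2 * ε + η) + 3 + 2 * C) * k) ≤ (13 + K) * (n:ℝ) ^ (1 - κ) := by
    nlinarith [mul_le_mul_of_nonneg_left hpow1 hK0]
  linarith

end Q146.LD
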